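import Pool.Agent.Y706.CH.Stm3

/-!
# Project CH: normalised critical points
-/

namespace Pool.Agent.Y706.CH

open Pool.Agent.W277.UB Pool.Agent.W277.UG Pool.Agent.W277.UH Finset Polynomial

universe u v w

/-- NRM: critical points over a subfield -/
def S_NRM : Prop := ∀ (E : Type v) (L : Type u) [Field E] [Infinite E] [Field L] [Algebra E L]
  (d : ℕ), 2 ≤ d → ∀ (p q : E[X]) (V : Fin (2 * d - 2) → L × L),
  Crit d (p.map (algebraMap E L)) (q.map (algebraMap E L)) V →
  (∀ i, (V i).2 ≠ 0 → ∃ x : E, algebraMap E L x = (V i).1 / (V i).2) →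
  ∃ Cr : Fin (2 * d - 2) → E × E, Crit d p q Cr ∧ ∀ i, ∃ s : L, s ≠ 0 ∧
    (algebraMap E L (Cr i).1, algebraMap E L (Cr i).2) = s • V i

/-- FDA: a field which is finite over `k(X)` is finite over `k(t)` -/
def S_FDA : Prop := ∀ (k : Type v) (E : Type u) [Field k] [Field E] [Algebra k E]
  [Algebra (RatFunc k) E] [IsScalarTower k (RatFunc k) E] [FiniteDimensional (RatFunc k) E],
  ∃ t : E, Transcendental k t ∧ FiniteDimensional (IntermediateField.adjoin k {t}) E

/-- HTA: the height of an algebraic element is zero, elements with the same field -/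
def S_HTA : Prop := ∀ (k : Type v) (L : Type u) [Field k] [Field L] [Algebra k L] (t : L),
  Transcendental k t →
  (∀ c : L, IsAlgebraic k c → Module.finrank (IntermediateField.adjoin k {c}) L = 0) ∧
  ∀ (c : k) (x y : L), x ≠ 0 → y = algebraMap k L c + x⁻¹ →
    Module.finrank (IntermediateField.adjoin k {y}) L =
      Module.finrank (IntermediateField.adjoin k {x}) L

end Pool.Agent.Y706.CH
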