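import Pool.Agent.Y706.CH.FinD
import Pool.Agent.Y706.CH.Stm4

/-!
# Project CH: last statements
-/

namespace Pool.Agent.Y706.CH

open Pool.Agent.W277.UB Pool.Agent.W277.UG Pool.Agent.W277.UH Finset Polynomial

universe u v w

/-- HTE: heights in an extension -/
def S_HTE : Prop := ∀ (k : Type v) (E : Type w) (L : Type u) [Field k] [Field E] [Field L]
  [Algebra k E] [Algebra E L] [Algebra k L] [IsScalarTower k E L] [FiniteDimensional E L]
  (x : E), Module.finrank (IntermediateField.adjoin k {algebraMap E L x}) L =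
    Module.finrank (IntermediateField.adjoin k {x}) E * Module.finrank E L

/-- DEG: the degree of the field of the roots -/
def S_DEG : Prop := ∀ (L : Type v) (M : Type u) [Field L] [Field M] [Algebra L M] (W : L[X])
  (r : ℕ), W ≠ 0 → W.natDegree ≤ r →
  FiniteDimensional L (IntermediateField.adjoin L (W.rootSet M)) ∧
  Module.finrank L (IntermediateField.adjoin L (W.rootSet M)) ≤ (r + 1) ^ r

/-- LSUP: large values -/
def S_LSUP : Prop := ∀ (x : ℕ → ℕ) (d B a : ℕ), 1 ≤ d → 0 < a →
  (a : ENNReal) ≤ B * Filter.limsup (fun m => (x m : ENNReal) / (d : ENNReal) ^ m) Filter.atTop →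
  ∀ M₀ : ℕ, ∃ m, M₀ ≤ m ∧ d ^ m * a ≤ 2 * B * x m

/-- P1M: the map on points in an extension -/
def S_P1M : Prop := ∀ (K : Type v) (N : Type u) [Field K] [Field N] (j : K →+* N) (p q : K[X])
  (d : ℕ) (z : Option K),
  ratP1 (p.map j) (q.map j) d (z.map j) = (ratP1 p q d z).map j

/-- ISO: the critical orbits of isotrivial maps have bounded height -/
def S_ISO : Prop := ∀ (k M : Type u) [Field k] [CharZero k] [Field M] [Algebra k M]
  [Algebra (RatFunc k) M] [IsScalarTower k (RatFunc k) M] [FiniteDimensional (RatFunc k) M],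
  (∀ x : M, IsAlgebraic k x → ∃ c : k, algebraMap k M c = x) → ∀ d : ℕ, 2 ≤ d → ∀ p q : M[X],
  max p.natDegree q.natDegree = d → IsCoprime p q → ConjConst k p q d →
  ∀ Cr : Fin (2 * d - 2) → M × M, Crit d p q Cr → ∀ i, ∃ H : ℕ, ∀ m,
    hpt k ((bK d p q)^[m] (Cr i)) ≤ H

end Pool.Agent.Y706.CH
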