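import Pool.Agent.Y706.CH.FinL
import Pool.Agent.Y706.CH.Stm5

/-!
# Project CH: the final theorem
-/

namespace Pool.Agent.Y706.CH

open Pool.Agent.W277.UB Pool.Agent.W277.UG Pool.Agent.W277.UH Finset Polynomial
open Pool.Agent.Y706.BI (S_GEN S_AFF S_CJC exists_inv)
open Pool.Agent.W277.UB.PlaceData (pole_nonneg pole_zero pole_of_ne)

universe u v w

/-- the height of a point -/
noncomputable def hgt (k : Type*) {L : Type*} [Field k] [Field L] [Algebra k L] : Option L → ℕ
  | some x => Module.finrank (IntermediateField.adjoin k {x}) L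
  | none => 0

/-- critical points -/
def IsCr {L : Type*} [Field L] (p q : L[X]) (d : ℕ) : Option L → Prop
  | some x => (derivative p * q - p * derivative q).eval x = 0
  | none => (derivative p * q - p * derivative q).coeff (2 * d - 2) = 0

lemma hgt_pt (k : Type*) {L : Type*} [Field k] [Field L] [Algebra k L] (X : L × L) :
    hgt k (pt X) = hpt k X := by
  unfold hpt pt
  split_ifs with h <;> rfl

/-- the height of a non-constant element is positive -/
lemma ht_pos (hPD : S_PD.{u, u}) (k K : Type u) [Field k] [CharZero k] [Field K] [Algebra k K]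
    [Algebra (RatFunc k) K] [IsScalarTower k (RatFunc k) K] [FiniteDimensional (RatFunc k) K]
    (hcl : ∀ x : K, IsAlgebraic k x → ∃ c : k, algebraMap k K c = x) (x : K)
    (hx : ∀ c : k, x ≠ algebraMap k K c) :
    0 < Module.finrank (IntermediateField.adjoin k {x}) K := by
  classical
  have : CharZero (RatFunc k) := charZero_of_injective_algebraMap
    (algebraMap k (RatFunc k)).injective
  obtain ⟨C, hC⟩ := hPD
  obtain ⟨u, -, hugen, huc⟩ := Pool.Agent.W277.UD.exists_gen (k := k) (F := RatFunc k) (E := K)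
    Set.univ (IntermediateField.adjoin_univ _ _) x (Set.mem_univ x) hx
  obtain ⟨Q, -, hQ2⟩ := hC k K hcl u hugen huc
  have hx0 : x ≠ 0 := by
    intro h
    exact hx 0 (by rw [h, map_zero])
  obtain ⟨v, hv⟩ : ∃ v, Q.ord v x < 0 := by
    by_contra hcon
    push Not at hcon
    obtain ⟨c, hc⟩ := Q.const x hx0 hcon
    exact hx c hc.symm
  have hvS : v ∈ sp Q {x} := by
    by_contra hv1
    have := sp_ord Q _ v hv1 x (Finset.mem_singleton_self x) hx0
    omega
  have h1 : 1 ≤ Q.pole v x := by
    rw [pole_of_ne hx0]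
    apply le_max_of_le_right
    omega
  have h2 : Q.wt v * Q.pole v x ≤ ∑ v ∈ sp Q {x}, Q.wt v * Q.pole v x :=
    Finset.single_le_sum (f := fun v => Q.wt v * Q.pole v x)
      (fun v _ => mul_nonneg (Q.wt_nonneg v) (pole_nonneg v x)) hvS
  have h3 : 1 ≤ Q.wt v * Q.pole v x := by nlinarith [Q.wt_one v]
  have h4 := (hQ2 x (sp Q {x}) (fun v hv => sp_pole Q _ v hv x (Finset.mem_singleton_self x))).1
  by_contra h5
  have h6 : Module.finrank (IntermediateField.adjoin k {x}) K = 0 := by omega
  rw [h6] at h4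
  simp only [Nat.cast_zero, mul_zero] at h4
  omega

lemma iter_pt {L : Type u} [Field L] (hPT : S_PT.{u}) (d : ℕ) (hd : 1 ≤ d) (p q : L[X])
    (hmax : max p.natDegree q.natDegree = d) (hco : IsCoprime p q) (X : L × L) (hX : X ≠ 0)
    (m : ℕ) : (bK d p q)^[m] X ≠ 0 ∧ (ratP1 p q d)^[m] (pt X) = pt ((bK d p q)^[m] X) := by
  induction m with
  | zero => exact ⟨hX, rfl⟩
  | succ m ih =>
    obtain ⟨h1, h2⟩ := hPT L d hd p q hmax hco _ ih.1
    rw [Function.iterate_succ_apply', Function.iterate_succ_apply', ih.2]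
    exact ⟨h1, h2⟩

lemma iter_map {K : Type v} {N : Type u} [Field K] [Field N] (hP1M : S_P1M.{u, v})
    (j : K →+* N) (p q : K[X]) (d : ℕ) (z : Option K) (m : ℕ) :
    (ratP1 (p.map j) (q.map j) d)^[m] (z.map j) = ((ratP1 p q d)^[m] z).map j := by
  induction m with
  | zero => rfl
  | succ m ih => rw [Function.iterate_succ_apply', Function.iterate_succ_apply', ih, hP1M]

lemma wr_ne {L : Type*} [Field L] [CharZero L] (p q : L[X]) (hco : IsCoprime p q) (d : ℕ)
    (hd : 1 ≤ d) (hmax : max p.natDegree q.natDegree = d) :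
    derivative p * q - p * derivative q ≠ 0 := by
  intro h
  have h1 : wronskian p q = 0 := by
    unfold wronskian
    linear_combination -h
  obtain ⟨h2, h3⟩ := hco.wronskian_eq_zero_iff.mp h1
  have h4 := natDegree_eq_zero_of_derivative_eq_zero h2
  have h5 := natDegree_eq_zero_of_derivative_eq_zero h3
  rw [h4, h5] at hmax
  simp at hmax
  omega

theorem finM_aux (hLOC : S_LOC2.{u, u, u}) (hGLOB : S_GLOB2.{u, u, u}) (hPD : S_PD.{u, u})
    (hGEN : S_GEN.{u, u}) (hHB : S_HB.{u, u, u}) (hAFF : S_AFF.{u, u})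
    (hCJC : S_CJC.{u, u, u}) (hAFC : S_AFC.{u}) (hAFA : S_AFA.{u, u}) (hNRM : S_NRM.{u, u})
    (hFDA : S_FDA.{u, u}) (hHTA : S_HTA.{u, u}) (hHTu : S_HT.{u, u}) (hHT : S_HT.{u, v})
    (hKF : S_KF.{u, v}) (hPT : S_PT.{u}) (hCRT : S_CRT.{u}) (hHTE : S_HTE.{u, v, u})
    (hLSUP : S_LSUP) (hP1M : S_P1M.{u, u}) (hISO : S_ISO.{u})
    (d n' B : ℕ) (hd : 2 ≤ d) :
    ∃ N : ℕ, ∀ (k : Type v) (L M₀ M : Type u) [Field k] [CharZero k] [Field L] [Field M₀]
    [Field M] [Algebra k L] [Algebra k M₀] [Algebra k M] [Algebra L M₀] [Algebra L M]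
    [Algebra M₀ M] [IsScalarTower k L M₀] [IsScalarTower k M₀ M] [IsScalarTower L M₀ M]
    [FiniteDimensional L M₀] [FiniteDimensional M₀ M]
    (t : L), Transcendental k t → FiniteDimensional (IntermediateField.adjoin k {t}) L →
    Module.finrank (IntermediateField.adjoin k {t}) L * Module.finrank L M₀ ≤ n' →
    ∀ p q : L[X], IsCoprime p q → max p.natDegree q.natDegree = d →
    ((derivative p * q - p * derivative q).map (algebraMap L M₀)).Splits →
    ∀ c : Option M, (∃ c₀ : Option M₀, c₀.map (algebraMap M₀ M) = c) →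
    IsCr (p.map (algebraMap L M)) (q.map (algebraMap L M)) d c →
    (∀ i, (hgt k (some (algebraMap L M (p.coeff i))) : ENNReal) ≤
        B * Filter.limsup (fun m => (hgt k ((ratP1 (p.map (algebraMap L M))
          (q.map (algebraMap L M)) d)^[m] c) : ENNReal) / (d : ENNReal) ^ m) Filter.atTop ∧
      (hgt k (some (algebraMap L M (q.coeff i))) : ENNReal) ≤
        B * Filter.limsup (fun m => (hgt k ((ratP1 (p.map (algebraMap L M))
          (q.map (algebraMap L M)) d)^[m] c) : ENNReal) / (d : ENNReal) ^ m) Filter.atTop) →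
    (∃ i, Transcendental k (p.coeff i) ∨ Transcendental k (q.coeff i)) →
    {z : Option L | (Set.range fun m : ℕ => (ratP1 p q d)^[m] z).Finite}.encard ≤ (N : ℕ∞) := by
  classical
  obtain ⟨N, hN⟩ := finL hLOC hGLOB hPD hGEN hHB hAFF hCJC hAFC hAFA hNRM hFDA hHTA hHTu d n'
    (2 * B * n' + 1) hd (by omega)
  refine ⟨N, ?_⟩
  intro k L M₀ M _ _ _ _ _ _ _ _ _ _ _ _ _ _ _ _ t ht hfd hn p q hco hmax hsp c hc0 hc hlim hnc
  have cL : CharZero L := charZero_of_injective_algebraMap (algebraMap k L).injective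
  set W := derivative p * q - p * derivative q with hW
  have cM : CharZero M₀ := charZero_of_injective_algebraMap (algebraMap L M₀).injective
  set j := algebraMap L M₀ with hj
  have hjinj : Function.Injective j := j.injective
  set j' := algebraMap M₀ M with hj'
  have hj'inj : Function.Injective j' := j'.injective
  have hjj : j'.comp j = algebraMap L M := (IsScalarTower.algebraMap_eq L M₀ M).symm
  have hjjx : ∀ x, j' (j x) = algebraMap L M x := fun x =>
    (IsScalarTower.algebraMap_apply L M₀ M x).symm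
  set p₀ := p.map j with hp₀
  set q₀ := q.map j with hq₀
  have hp₀' : p₀.map j' = p.map (algebraMap L M) := by
    rw [hp₀, Polynomial.map_map, hjj]
  have hq₀' : q₀.map j' = q.map (algebraMap L M) := by
    rw [hq₀, Polynomial.map_map, hjj]
  have hco₀ : IsCoprime p₀ q₀ := (Polynomial.isCoprime_map j).mpr hco
  have hmax₀ : max p₀.natDegree q₀.natDegree = d := by
    rw [hp₀, hq₀, natDegree_map_eq_of_injective hjinj, natDegree_map_eq_of_injective hjinj]
    exact hmax
  have hWmap : ∀ {K K' : Type u} [Field K] [Field K'] (f : K →+* K') (p q : K[X]),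
      derivative (p.map f) * q.map f - p.map f * derivative (q.map f) =
        (derivative p * q - p * derivative q).map f := by
    intro K K' _ _ f p q
    rw [Polynomial.map_sub, Polynomial.map_mul, Polynomial.map_mul, derivative_map,
      derivative_map]
  have hW₀ : derivative p₀ * q₀ - p₀ * derivative q₀ = W.map j := hWmap j p q
  have hWM : derivative (p.map (algebraMap L M)) * q.map (algebraMap L M) -
      p.map (algebraMap L M) * derivative (q.map (algebraMap L M)) =
        W.map (algebraMap L M) := hWmap _ p q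
  obtain ⟨Cr, hCr, hroot, hinf⟩ := hCRT M₀ d hd p₀ q₀ hmax₀ hco₀ (by
    rw [hW₀]
    exact hsp)
  -- the critical point
  obtain ⟨i₀, hi₀⟩ : ∃ i, (pt (Cr i)).map j' = c := by
    obtain ⟨c₀, rfl⟩ := hc0
    cases c₀ with
    | none =>
      have h1 : (W.map (algebraMap L M)).coeff (2 * d - 2) = 0 := by
        rw [← hWM]
        exact hc
      have h2 : W.coeff (2 * d - 2) = 0 := by
        rw [coeff_map] at h1
        exact (map_eq_zero _).mp h1
      obtain ⟨i, hi⟩ := hinf (by rw [hW₀, coeff_map, h2, map_zero])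
      exact ⟨i, by rw [hi]⟩
    | some r =>
      have h1 : (W.map (algebraMap L M)).eval (j' r) = 0 := by
        rw [← hWM]
        exact hc
      obtain ⟨i, hi⟩ := hroot r (by
        rw [hW₀]
        apply hj'inj
        rw [map_zero, ← eval₂_at_apply, ← eval_map, Polynomial.map_map, hjj]
        exact h1)
      exact ⟨i, by rw [hi]⟩
  -- the field of constants
  set t₀ : M₀ := j t with ht₀
  have htr₀ : Transcendental k t₀ := by
    intro h
    apply ht
    exact (isAlgebraic_algebraMap_iff hjinj).mp h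
  have hfr₀ : Module.finrank (IntermediateField.adjoin k {t₀}) M₀ =
      Module.finrank (IntermediateField.adjoin k {t}) L * Module.finrank L M₀ := hHTE k L M₀ t
  have hfr₀' : Module.finrank (IntermediateField.adjoin k {t₀}) M₀ ≤ n' := by
    rw [hfr₀]
    exact hn
  have hfd₀ : FiniteDimensional (IntermediateField.adjoin k {t₀}) M₀ := by
    apply FiniteDimensional.of_finrank_pos
    rw [hfr₀]
    exact Nat.mul_pos Module.finrank_pos Module.finrank_pos
  obtain ⟨inst, hst, hfin, hle⟩ := Pool.Agent.W277.UD.exists_ratAlg k M₀ t₀ htr₀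
  obtain ⟨hkf, hkfle⟩ := hKF k M₀ t₀ htr₀ hfd₀
  have : CharZero (algebraicClosure k M₀) := charZero_of_injective_algebraMap (algebraMap k (algebraicClosure k M₀)).injective
  have halg : ∀ x : M₀, IsAlgebraic (algebraicClosure k M₀) x → ∃ c : (algebraicClosure k M₀), algebraMap (algebraicClosure k M₀) M₀ c = x := by
    intro y hy
    have h1 : IsAlgebraic k y := hy.restrictScalars k
    exact ⟨⟨y, h1.isIntegral⟩, rfl⟩
  obtain ⟨t₁, ht₁, hfd₁⟩ := hFDA (algebraicClosure k M₀) M₀
  have hcomp : ∀ x : M₀, Module.finrank (IntermediateField.adjoin (algebraicClosure k M₀) {x}) M₀ ≤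
      Module.finrank (IntermediateField.adjoin k {x}) M₀ ∧
      Module.finrank (IntermediateField.adjoin k {x}) M₀ ≤
        n' * Module.finrank (IntermediateField.adjoin (algebraicClosure k M₀) {x}) M₀ := by
    intro x
    obtain ⟨h1, h2⟩ := hHT k (algebraicClosure k M₀) M₀ M₀ t₁ ht₁ hfd₁ x
    refine ⟨h1, h2.trans ?_⟩
    rw [Module.finrank_self, mul_one]
    exact Nat.mul_le_mul_right _ (hkfle.trans hfr₀')
  have hcompz : ∀ z : Option M₀, hgt k z ≤ n' * hgt (algebraicClosure k M₀) z := by
    intro z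
    cases z with
    | none => exact Nat.zero_le _
    | some x => exact (hcomp x).2
  have hext : ∀ z : Option M₀, hgt k (z.map j') = hgt k z * Module.finrank M₀ M := by
    intro z
    cases z with
    | none => exact (Nat.zero_mul _).symm
    | some x => exact hHTE k M₀ M x
  -- large values
  set x : ℕ → ℕ := fun m => hgt k ((ratP1 (p.map (algebraMap L M))
    (q.map (algebraMap L M)) d)^[m] c) with hx
  set cf : Finset L := (range (d + 1)).image p.coeff ∪ (range (d + 1)).image q.coeff with hcf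
  set a : ℕ := cf.sup fun y => hgt k (some (algebraMap L M y)) with ha
  have hpd : p.natDegree ≤ d := hmax ▸ le_max_left _ _
  have hqd : q.natDegree ≤ d := hmax ▸ le_max_right _ _
  have hcfa : ∀ y ∈ cf, hgt k (some (algebraMap L M y)) ≤ a := fun y hy =>
    Finset.le_sup (f := fun y => hgt k (some (algebraMap L M y))) hy
  have hlarge : ∀ M₁ : ℕ, ∃ m, M₁ ≤ m ∧ d ^ m * a ≤ 2 * B * x m := by
    intro M₁
    rcases Nat.eq_zero_or_pos a with h0 | h0
    · exact ⟨M₁, le_rfl, by rw [h0, mul_zero]; exact Nat.zero_le _⟩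
    · apply hLSUP x d B a (by omega) h0
      obtain ⟨y, hy, hya⟩ := Finset.exists_mem_eq_sup cf ⟨p.coeff 0, Finset.mem_union_left _
        (Finset.mem_image_of_mem _ (Finset.mem_range.mpr (by omega)))⟩
        (fun y => hgt k (some (algebraMap L M y)))
      rw [← ha] at hya
      rw [hya]
      rw [hcf, Finset.mem_union, Finset.mem_image, Finset.mem_image] at hy
      rcases hy with ⟨i, _, hi⟩ | ⟨i, _, hi⟩
      · rw [← hi]
        exact (hlim i).1
      · rw [← hi]
        exact (hlim i).2
  -- the alternative formulation over `M₀`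
  have hxm : ∀ m, x m = hpt k ((bK d p₀ q₀)^[m] (Cr i₀)) * Module.finrank M₀ M := by
    intro m
    have h1 := (iter_pt hPT d (by omega) p₀ q₀ hmax₀ hco₀ (Cr i₀) (hCr.1 i₀) m).2
    have h2 := iter_map hP1M j' p₀ q₀ d (pt (Cr i₀)) m
    rw [hp₀', hq₀', hi₀] at h2
    simp only [hx]
    rw [h2, h1, hext, hgt_pt]
  have hposM : 0 < Module.finrank M₀ M := Module.finrank_pos
  have hcfin : ∀ (f : L[X]) (i : ℕ), (∀ i ≤ d, f.coeff i ∈ cf) → f.natDegree ≤ d →
      hgt k (some (algebraMap L M (f.coeff i))) ≤ a ∨ f.coeff i = 0 := by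
    intro f i h1 h2
    by_cases hi : i ≤ d
    · exact Or.inl (hcfa _ (h1 i hi))
    · exact Or.inr (coeff_eq_zero_of_natDegree_lt (by omega))
  have hpcf : ∀ i ≤ d, p.coeff i ∈ cf := fun i hi => Finset.mem_union_left _
    (Finset.mem_image_of_mem _ (Finset.mem_range.mpr (by omega)))
  have hqcf : ∀ i ≤ d, q.coeff i ∈ cf := fun i hi => Finset.mem_union_right _
    (Finset.mem_image_of_mem _ (Finset.mem_range.mpr (by omega)))
  have h0alg : ∀ (x : M₀), IsAlgebraic (algebraicClosure k M₀) x →
      Module.finrank (IntermediateField.adjoin (algebraicClosure k M₀) {x}) M₀ = 0 := (hHTA (algebraicClosure k M₀) M₀ t₁ ht₁).1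
  have hcr1 : ∀ M₁ : ℕ, ∃ m, M₁ ≤ m ∧ ∀ (f : L[X]), (∀ i ≤ d, f.coeff i ∈ cf) →
      f.natDegree ≤ d → ∀ i,
      d ^ m * Module.finrank (IntermediateField.adjoin (algebraicClosure k M₀) {(f.map j).coeff i}) M₀ ≤
        (2 * B * n' + 1) * hpt (algebraicClosure k M₀) ((bK d p₀ q₀)^[m] (Cr i₀)) := by
    intro M₁
    obtain ⟨m, hm, hma⟩ := hlarge M₁
    refine ⟨m, hm, ?_⟩
    intro f hf1 hf2 i
    rcases hcfin f i hf1 hf2 with h | h
    · rw [coeff_map]
      have h1 : d ^ m * hgt k (some (algebraMap L M (f.coeff i))) ≤ 2 * B * x m :=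
        (Nat.mul_le_mul_left _ h).trans hma
      have h2 : hgt k (some (algebraMap L M (f.coeff i))) =
          Module.finrank (IntermediateField.adjoin k {j (f.coeff i)}) M₀ *
            Module.finrank M₀ M := by
        rw [← hjjx]
        exact hext (some (j (f.coeff i)))
      rw [h2, hxm m, ← mul_assoc, ← mul_assoc] at h1
      have h3 := Nat.le_of_mul_le_mul_right h1 hposM
      have h4 : hpt k ((bK d p₀ q₀)^[m] (Cr i₀)) ≤
          n' * hpt (algebraicClosure k M₀) ((bK d p₀ q₀)^[m] (Cr i₀)) := by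
        rw [← hgt_pt, ← hgt_pt]
        exact hcompz _
      calc d ^ m * Module.finrank (IntermediateField.adjoin (algebraicClosure k M₀) {j (f.coeff i)}) M₀
          ≤ d ^ m * Module.finrank (IntermediateField.adjoin k {j (f.coeff i)}) M₀ :=
            Nat.mul_le_mul_left _ (hcomp _).1
        _ ≤ 2 * B * hpt k ((bK d p₀ q₀)^[m] (Cr i₀)) := h3
        _ ≤ 2 * B * (n' * hpt (algebraicClosure k M₀) ((bK d p₀ q₀)^[m] (Cr i₀))) := Nat.mul_le_mul_left _ h4
        _ ≤ (2 * B * n' + 1) * hpt (algebraicClosure k M₀) ((bK d p₀ q₀)^[m] (Cr i₀)) := by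
            rw [← mul_assoc, add_mul]
            exact Nat.le_add_right _ _
    · rw [coeff_map, h, map_zero, h0alg 0 isAlgebraic_zero, mul_zero]
      exact Nat.zero_le _
  by_contra hcon
  push Not at hcon
  obtain ⟨P, hP, hcard⟩ := exists_inv _ _ hcon
  -- not isotrivial
  have hiso : ¬ ConjConst (algebraicClosure k M₀) p₀ q₀ d := by
    intro hcj
    obtain ⟨H, hH⟩ := hISO (algebraicClosure k M₀) M₀ halg d hd p₀ q₀ hmax₀ hco₀ hcj Cr hCr i₀
    obtain ⟨m, hm, hf⟩ := hcr1 ((2 * B * n' + 1) * H + 1)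
    have h1 : (2 * B * n' + 1) * H < d ^ m := by
      have h2 : m < 2 ^ m := Nat.lt_two_pow_self
      have h3 : 2 ^ m ≤ d ^ m := Nat.pow_le_pow_left hd m
      omega
    have h2 : ∀ (f : L[X]), (∀ i ≤ d, f.coeff i ∈ cf) → f.natDegree ≤ d → ∀ i,
        IsAlgebraic k (f.coeff i) := by
      intro f hf1 hf2 i
      by_contra htr
      have h3 : 0 < Module.finrank (IntermediateField.adjoin (algebraicClosure k M₀) {(f.map j).coeff i}) M₀ := by
        apply ht_pos hPD (algebraicClosure k M₀) M₀ halg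
        intro c hc
        apply htr
        rw [coeff_map] at hc
        have h4 : IsAlgebraic k (algebraMap (algebraicClosure k M₀) M₀ c) := mem_algebraicClosure_iff.mp c.2
        rw [← hc] at h4
        exact (isAlgebraic_algebraMap_iff hjinj).mp h4
      have h4 := hf f hf1 hf2 i
      have h5 : (2 * B * n' + 1) * hpt (algebraicClosure k M₀) ((bK d p₀ q₀)^[m] (Cr i₀)) ≤ (2 * B * n' + 1) * H :=
        Nat.mul_le_mul_left _ (hH m)
      have h6 : d ^ m ≤ d ^ m *
          Module.finrank (IntermediateField.adjoin (algebraicClosure k M₀) {(f.map j).coeff i}) M₀ :=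
        Nat.le_mul_of_pos_right _ h3
      omega
    obtain ⟨i, hi | hi⟩ := hnc
    · exact hi (h2 p hpcf hpd i)
    · exact hi (h2 q hqcf hqd i)
  have hinjP : Function.Injective (Option.map j) := Option.map_injective hjinj
  have hlt := hN (algebraicClosure k M₀) M₀ halg (hle.trans hfr₀') p₀ q₀ hmax₀ hco₀ hiso Cr hCr
    (P.image (Option.map j)) (by
      intro z hz
      rw [Finset.mem_image] at hz
      obtain ⟨y, hy, rfl⟩ := hz
      rw [hp₀, hq₀, hP1M]
      exact Finset.mem_image_of_mem _ (hP y hy)) (by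
      intro M₁
      obtain ⟨m, hm, hf⟩ := hcr1 M₁
      exact ⟨m, hm, i₀, fun i => ⟨hf p hpcf hpd i, hf q hqcf hqd i⟩⟩)
  rw [Finset.card_image_of_injective _ hinjP] at hlt
  omega

theorem finM (hLOC : S_LOC2.{u, u, u}) (hGLOB : S_GLOB2.{u, u, u}) (hPD : S_PD.{u, u})
    (hGEN : S_GEN.{u, u}) (hHB : S_HB.{u, u, u}) (hAFF : S_AFF.{u, u})
    (hCJC : S_CJC.{u, u, u}) (hAFC : S_AFC.{u}) (hAFA : S_AFA.{u, u}) (hNRM : S_NRM.{u, u})
    (hFDA : S_FDA.{u, u}) (hHTA : S_HTA.{u, u}) (hHTu : S_HT.{u, u}) (hHT : S_HT.{u, v})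
    (hKF : S_KF.{u, v}) (hPT : S_PT.{u}) (hCRT : S_CRT.{u}) (hHTE : S_HTE.{u, v, u})
    (hDEG : S_DEG.{u, u}) (hLSUP : S_LSUP) (hP1M : S_P1M.{u, u}) (hISO : S_ISO.{u})
    (d n B : ℕ) (hd : 2 ≤ d) :
    ∃ N : ℕ, ∀ (k : Type v) (L M : Type u) [Field k] [CharZero k] [Field L] [Field M]
    [Algebra k L] [Algebra L M] [Algebra k M] [IsScalarTower k L M] [FiniteDimensional L M]
    (t : L), Transcendental k t → FiniteDimensional (IntermediateField.adjoin k {t}) L →
    Module.finrank (IntermediateField.adjoin k {t}) L ≤ n →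
    ∀ p q : L[X], IsCoprime p q → max p.natDegree q.natDegree = d →
    ((derivative p * q - p * derivative q).map (algebraMap L M)).Splits →
    ∀ c : Option M, IsCr (p.map (algebraMap L M)) (q.map (algebraMap L M)) d c →
    (∀ i, (hgt k (some (algebraMap L M (p.coeff i))) : ENNReal) ≤
        B * Filter.limsup (fun m => (hgt k ((ratP1 (p.map (algebraMap L M))
          (q.map (algebraMap L M)) d)^[m] c) : ENNReal) / (d : ENNReal) ^ m) Filter.atTop ∧
      (hgt k (some (algebraMap L M (q.coeff i))) : ENNReal) ≤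
        B * Filter.limsup (fun m => (hgt k ((ratP1 (p.map (algebraMap L M))
          (q.map (algebraMap L M)) d)^[m] c) : ENNReal) / (d : ENNReal) ^ m) Filter.atTop) →
    (∃ i, Transcendental k (p.coeff i) ∨ Transcendental k (q.coeff i)) →
    {z : Option L | (Set.range fun m : ℕ => (ratP1 p q d)^[m] z).Finite}.encard ≤ (N : ℕ∞) := by
  classical
  obtain ⟨N, hN⟩ := finM_aux hLOC hGLOB hPD hGEN hHB hAFF hCJC hAFC hAFA hNRM hFDA hHTA hHTu hHT
    hKF hPT hCRT hHTE hLSUP hP1M hISO d (n * (2 * d + 1) ^ (2 * d)) B hd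
  refine ⟨N, ?_⟩
  intro k L M _ _ _ _ _ _ _ _ _ t ht hfd hn p q hco hmax hsp c hc hlim hnc
  have cL : CharZero L := charZero_of_injective_algebraMap (algebraMap k L).injective
  set W := derivative p * q - p * derivative q with hW
  have hW0 : W ≠ 0 := wr_ne p q hco d (by omega) hmax
  have hWd : W.natDegree ≤ 2 * d := by
    have hpd : p.natDegree ≤ d := hmax ▸ le_max_left _ _
    have hqd : q.natDegree ≤ d := hmax ▸ le_max_right _ _
    refine (natDegree_sub_le _ _).trans (max_le ?_ ?_)
    · refine (natDegree_mul_le).trans ?_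
      have := natDegree_derivative_le p
      omega
    · refine (natDegree_mul_le).trans ?_
      have := natDegree_derivative_le q
      omega
  let M₀ : IntermediateField L M := IntermediateField.adjoin L (W.rootSet M)
  obtain ⟨hfdM, hdegM⟩ := hDEG L M W (2 * d) hW0 hWd
  have hfdM₀ : FiniteDimensional L M₀ := hfdM
  have hdegM₀ : Module.finrank L M₀ ≤ (2 * d + 1) ^ (2 * d) := hdegM
  have hsplf : W.IsSplittingField L M₀ := IntermediateField.adjoin_rootSet_isSplittingField hsp
  have hfdMM : FiniteDimensional M₀ M := FiniteDimensional.right L M₀ M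
  have tw : IsScalarTower k M₀ M := IsScalarTower.of_algebraMap_eq fun x => rfl
  have hWM : derivative (p.map (algebraMap L M)) * q.map (algebraMap L M) -
      p.map (algebraMap L M) * derivative (q.map (algebraMap L M)) =
        W.map (algebraMap L M) := by
    rw [hW, Polynomial.map_sub, Polynomial.map_mul, Polynomial.map_mul, derivative_map,
      derivative_map]
  refine hN k L M₀ M t ht hfd (Nat.mul_le_mul hn hdegM₀) p q hco hmax hsplf.splits' c ?_ hc hlim
    hnc
  cases c with
  | none => exact ⟨none, rfl⟩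
  | some r =>
    have h1 : (W.map (algebraMap L M)).eval r = 0 := by
      rw [← hWM]
      exact hc
    have h2 : r ∈ W.rootSet M := by
      rw [mem_rootSet]
      refine ⟨hW0, ?_⟩
      rw [aeval_def, ← eval_map]
      exact h1
    have hr : r ∈ M₀ := IntermediateField.subset_adjoin _ _ h2
    exact ⟨some ⟨r, hr⟩, rfl⟩

end Pool.Agent.Y706.CH
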