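import Pool.Agent.Y706.CH.Stm7
import Pool.Agent.Y706.CH.Stm5
import Pool.Agent.Y555.CH.Ext

/-!
# Project CH: points of bounded degree
-/

namespace Pool.Agent.Y706.CH7

open Pool.Agent.W277.UH Pool.Agent.Y706.BI Polynomial NumberField

universe u v w

/-- strong uniform boundedness for maps of large critical height -/
def S_FIN2 : Prop := ∃ N : ℕ → ℕ → ℕ → ℕ, ∀ (k : Type v) (L : Type u) [Field k] [CharZero k]
    [Field L] [Algebra k L] (t : L), Transcendental k t →
    FiniteDimensional (IntermediateField.adjoin k {t}) L →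
    ∀ (n d B : ℕ), Module.finrank (IntermediateField.adjoin k {t}) L ≤ n → 2 ≤ d →
    ∀ p q : L[X], IsCoprime p q → max p.natDegree q.natDegree = d → LCH k p q d B →
    {z : Option L | (Set.range fun m : ℕ => (ratP1 p q d)^[m] z).Finite}.encard ≤
      ((N n d B : ℕ) : ℕ∞)

theorem bdg2 (hFIN : S_FIN2.{u, v}) (hBDC : S_BDC.{u}) (hEXT : S_EXT.{u, v}) :
    S_BDG2.{u, v} := by
  obtain ⟨N, hN⟩ := hFIN
  refine ⟨fun n D d B => (N (n * D) d B + 1) * ((N (n * D) d B + 1) *
    (2 * d ^ (N (n * D) d B) + 1)), ?_⟩
  intro k L _ _ _ _ t ht hfd n D d B hn hd p q hco hmax hlch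
  apply hBDC L D d (N (n * D) d B) hd p q hco hmax
  intro E hE hED
  have hinj : Function.Injective (algebraMap L E) := (algebraMap L E).injective
  have htE : Transcendental k (algebraMap L E t) := by
    intro h
    exact ht ((isAlgebraic_algebraMap_iff hinj).mp h)
  have hfr : Module.finrank (IntermediateField.adjoin k {algebraMap L E t}) E =
      Module.finrank (IntermediateField.adjoin k {t}) L * Module.finrank L E :=
    Pool.Agent.Y555.CH.t_HTE k L E t
  have hfdE : FiniteDimensional (IntermediateField.adjoin k {algebraMap L E t}) E := by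
    apply FiniteDimensional.of_finrank_pos
    rw [hfr]
    exact Nat.mul_pos Module.finrank_pos Module.finrank_pos
  refine hN k E (algebraMap L E t) htE hfdE (n * D) d B ?_ hd _ _
    ((Polynomial.isCoprime_map _).mpr hco) ?_ (hEXT k L p q d B hlch E hE)
  · rw [hfr]
    exact Nat.mul_le_mul hn hED
  · rw [natDegree_map_eq_of_injective hinj, natDegree_map_eq_of_injective hinj]
    exact hmax

end Pool.Agent.Y706.CH7
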