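import Pool.Agent.Y31.BI.Bdg
import Pool.Agent.Y706.BI.Stm3
import Pool.Agent.Y706.CH.Bdg2

/-!
# Project CH: points of bounded degree and of bounded gonality
-/

set_option autoImplicit false

namespace Pool.Agent.Y706.CH7

open Pool.Agent.W277.UH Pool.Agent.Y706.BI Pool.Agent.Y31.BI Polynomial

universe u v w

/-- the number of points with at most `M` points in the orbit -/
theorem cnt {F : Type*} [Field F] [IsAlgClosed F] (d M : ℕ) (hd : 2 ≤ d) (P Q : F[X])
    (hPQ : IsCoprime P Q) (hmax : max P.natDegree Q.natDegree = d) (S : Set (Option F))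
    (hmain : ∀ z ∈ S, ∃ a b : ℕ, b < a ∧ a ≤ M ∧ (ratP1 P Q d)^[a] z = (ratP1 P Q d)^[b] z) :
    S.encard ≤ (((M + 1) * ((M + 1) * (2 * d ^ M + 1)) : ℕ) : ℕ∞) := by
  classical
  have hPd : P.natDegree ≤ d := (le_max_left _ _).trans hmax.le
  have hQd : Q.natDegree ≤ d := (le_max_right _ _).trans hmax.le
  have htop : P.coeff d ≠ 0 ∨ Q.coeff d ≠ 0 := by
    have key : ∀ g : F[X], g.natDegree = d → g.coeff d ≠ 0 := by
      intro g hg
      rw [← hg, coeff_natDegree, Ne, leadingCoeff_eq_zero]
      rintro rfl
      rw [natDegree_zero] at hg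
      omega
    rcases le_total P.natDegree Q.natDegree with h | h
    · right
      exact key Q ((max_eq_right h).symm.trans hmax)
    · left
      exact key P ((max_eq_left h).symm.trans hmax)
  have hcov : S ⊆ ⋃ a ∈ Finset.range (M + 1), ⋃ b ∈ Finset.range (M + 1),
          {z : Option F | b < a ∧ (ratP1 P Q d)^[a] z = (ratP1 P Q d)^[b] z} := by
    intro z hz
    obtain ⟨a, b, hab, ha, h⟩ := hmain z hz
    simp only [Set.mem_iUnion, Finset.mem_range]
    exact ⟨a, by omega, b, by omega, hab, h⟩
  have hone : ∀ a ∈ Finset.range (M + 1), ∀ b ∈ Finset.range (M + 1),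
      {z : Option F | b < a ∧ (ratP1 P Q d)^[a] z = (ratP1 P Q d)^[b] z}.encard ≤
        ((2 * d ^ M + 1 : ℕ) : ℕ∞) := by
    intro a ha b _
    rw [Finset.mem_range] at ha
    by_cases hab : b < a
    · refine (Set.encard_le_encard ?_).trans ((coin hd hPd hQd hPQ htop hab).trans ?_)
      · exact fun z hz => hz.2
      · have h1 : 2 * d ^ a + 1 ≤ 2 * d ^ M + 1 := by
          have := Nat.pow_le_pow_right (show 0 < d by omega) (show a ≤ M by omega)
          omega
        exact_mod_cast h1
    · have h1 : {z : Option F | b < a ∧ (ratP1 P Q d)^[a] z = (ratP1 P Q d)^[b] z} = ∅ := by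
        ext z
        simp [hab]
      rw [h1, Set.encard_empty]
      exact bot_le
  have hun : ∀ (c : ℕ) (G : ℕ → Set (Option F)), (∀ a ∈ Finset.range (M + 1),
      (G a).encard ≤ (c : ℕ∞)) → (⋃ a ∈ Finset.range (M + 1), G a).encard ≤
        (((M + 1) * c : ℕ) : ℕ∞) := by
    intro c G hG
    have h1 : ∀ s : Finset ℕ, (∀ a ∈ s, (G a).encard ≤ (c : ℕ∞)) →
        (⋃ a ∈ s, G a).encard ≤ ((s.card * c : ℕ) : ℕ∞) := by
      intro s
      induction s using Finset.induction_on with
      | empty => intro _; simp
      | insert x s hx ih =>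
        intro hs
        rw [Finset.set_biUnion_insert, Finset.card_insert_of_notMem hx, add_mul, one_mul]
        refine (Set.encard_union_le _ _).trans ?_
        rw [add_comm]
        push_cast
        gcongr
        · exact_mod_cast ih fun a ha => hs a (Finset.mem_insert_of_mem ha)
        · exact hs x (Finset.mem_insert_self _ _)
    have h2 := h1 (Finset.range (M + 1)) hG
    rwa [Finset.card_range] at h2
  refine (Set.encard_le_encard hcov).trans (hun _ _ fun a ha => hun _ _ fun b hb => ?_)
  exact hone a ha b hb

/-- the orbit over a finite extension -/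
lemma orb {L : Type u} [Field L] (d M : ℕ) (p q : L[X])
    (E : IntermediateField L (AlgebraicClosure L)) (y : Option E)
    (hB : {z : Option E | (Set.range fun m : ℕ =>
      (ratP1 (p.map (algebraMap L E)) (q.map (algebraMap L E)) d)^[m] z).Finite}.encard ≤
      ((M : ℕ) : ℕ∞))
    (hfin : (Set.range fun m : ℕ =>
        (ratP1 (p.map (algebraMap L (AlgebraicClosure L)))
          (q.map (algebraMap L (AlgebraicClosure L))) d)^[m]
            (y.map (algebraMap E (AlgebraicClosure L)))).Finite) :
    ∃ a b : ℕ, b < a ∧ a ≤ M ∧ (ratP1 (p.map (algebraMap L (AlgebraicClosure L)))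
          (q.map (algebraMap L (AlgebraicClosure L))) d)^[a]
            (y.map (algebraMap E (AlgebraicClosure L))) =
      (ratP1 (p.map (algebraMap L (AlgebraicClosure L)))
          (q.map (algebraMap L (AlgebraicClosure L))) d)^[b]
            (y.map (algebraMap E (AlgebraicClosure L))) := by
  have hmm : ∀ g : L[X], (g.map (algebraMap L E)).map (algebraMap E (AlgebraicClosure L)) =
      g.map (algebraMap L (AlgebraicClosure L)) := by
    intro g
    rw [Polynomial.map_map, ← IsScalarTower.algebraMap_eq]
  have hyfin : (Set.range fun m : ℕ => (ratP1 (p.map (algebraMap L E))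
      (q.map (algebraMap L E)) d)^[m] y).Finite := by
    apply Pool.Agent.Y31.BI.pre_map (algebraMap E (AlgebraicClosure L))
    rw [hmm, hmm]
    exact hfin
  obtain ⟨a, b, hab, ha, h⟩ := pigeon (ratP1 (p.map (algebraMap L E))
    (q.map (algebraMap L E)) d) y _ M hB (by
      intro m
      show (Set.range fun m' : ℕ => (ratP1 (p.map (algebraMap L E))
        (q.map (algebraMap L E)) d)^[m'] ((ratP1 (p.map (algebraMap L E))
        (q.map (algebraMap L E)) d)^[m] y)).Finite
      refine hyfin.subset ?_
      rintro _ ⟨m', rfl⟩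
      exact ⟨m' + m, Function.iterate_add_apply _ _ _ _⟩)
  refine ⟨a, b, hab, ha, ?_⟩
  have h1 := congrArg (Option.map (algebraMap E (AlgebraicClosure L))) h
  rw [← Pool.Agent.Y31.BI.ratP1_iter_map, ← Pool.Agent.Y31.BI.ratP1_iter_map, hmm, hmm] at h1
  exact h1

lemma deg_map {L F : Type*} [Field L] [Field F] [Algebra L F] (p q : L[X]) (d : ℕ)
    (h : max p.natDegree q.natDegree = d) :
    max (p.map (algebraMap L F)).natDegree (q.map (algebraMap L F)).natDegree = d := by
  rw [natDegree_map, natDegree_map]
  exact h

/-- points of bounded degree -/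
theorem t_BDC : S_BDC.{u} := by
  intro L _ D d M hd p q hco hmax hE
  by_cases hD : D = 0
  · subst hD
    have h1 : {z : Option (AlgebraicClosure L) | (Set.range fun m : ℕ =>
        (ratP1 (p.map (algebraMap L (AlgebraicClosure L)))
          (q.map (algebraMap L (AlgebraicClosure L))) d)^[m] z).Finite ∧
      ∀ x, z = some x → ∃ E : IntermediateField L (AlgebraicClosure L), FiniteDimensional L E ∧
        Module.finrank L E ≤ 0 ∧ x ∈ E} ⊆ {none} := by
      rintro z ⟨hz1, hz2⟩
      cases z with
      | none => exact Set.mem_singleton _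
      | some x =>
        obtain ⟨E, h1, h2, h3⟩ := hz2 x rfl
        have := Module.finrank_pos (R := L) (M := E)
        omega
    refine (Set.encard_le_encard h1).trans ?_
    rw [Set.encard_singleton]
    have h2 : 1 ≤ (M + 1) * ((M + 1) * (2 * d ^ M + 1)) := by
      apply Nat.one_le_iff_ne_zero.mpr
      positivity
    exact_mod_cast h2
  refine cnt d M hd _ _ (hco.map (Polynomial.mapRingHom (algebraMap L (AlgebraicClosure L))))
    (deg_map p q d hmax) _ ?_
  rintro z ⟨hz1, hz2⟩
  obtain ⟨E, hE1, hE2, y, hy⟩ : ∃ E : IntermediateField L (AlgebraicClosure L),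
        FiniteDimensional L E ∧ Module.finrank L E ≤ D ∧
        ∃ y : Option E, y.map (algebraMap E (AlgebraicClosure L)) = z := by
      cases z with
      | none =>
        refine ⟨⊥, inferInstance, ?_, none, rfl⟩
        rw [IntermediateField.finrank_bot]
        omega
      | some x =>
        obtain ⟨E, h1, h2, h3⟩ := hz2 x rfl
        exact ⟨E, h1, h2, some ⟨x, h3⟩, rfl⟩
  subst hy
  exact orb d M p q E y (hE E hE1 hE2) hz1

/-- points of bounded gonality, one map -/
theorem gonc {k : Type v} {K : Type u} [Field k] [Field K] [Algebra k K] (D d M : ℕ)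
    (hd : 2 ≤ d) (p q : K[X]) (hco : IsCoprime p q) (hmax : max p.natDegree q.natDegree = d)
    (hE : ∀ E : IntermediateField K (AlgebraicClosure K), FiniteDimensional K E →
      ∀ t : E, Transcendental k t → FiniteDimensional (IntermediateField.adjoin k {t}) E →
      Module.finrank (IntermediateField.adjoin k {t}) E ≤ D →
      {z : Option E | (Set.range fun m : ℕ =>
        (ratP1 (p.map (algebraMap K E)) (q.map (algebraMap K E)) d)^[m] z).Finite}.encard ≤
        ((M : ℕ) : ℕ∞)) :
    {z : Option (AlgebraicClosure K) | (Set.range fun m : ℕ =>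
        (ratP1 (p.map (algebraMap K (AlgebraicClosure K)))
          (q.map (algebraMap K (AlgebraicClosure K))) d)^[m] z).Finite ∧
      ∃ t : IntermediateField.adjoin K {x | z = some x}, Transcendental k t ∧
        FiniteDimensional (IntermediateField.adjoin k {t})
          (IntermediateField.adjoin K {x | z = some x}) ∧
        Module.finrank (IntermediateField.adjoin k {t})
          (IntermediateField.adjoin K {x | z = some x}) ≤ D}.encard ≤
      (((M + 1) * ((M + 1) * (2 * d ^ M + 1)) : ℕ) : ℕ∞) := by
  refine cnt d M hd _ _ (hco.map (Polynomial.mapRingHom (algebraMap K (AlgebraicClosure K))))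
    (deg_map p q d hmax) _ ?_
  rintro z ⟨hz1, t, ht, hfd, hD⟩
  have hfin : Finite {x | z = some x} := by
    apply Set.Finite.to_subtype
    apply Set.Subsingleton.finite
    intro x hx y hy
    exact Option.some_injective _ (hx.symm.trans hy)
  have hE1 : FiniteDimensional K (IntermediateField.adjoin K {x | z = some x}) :=
    IntermediateField.finiteDimensional_adjoin fun x _ => Algebra.IsIntegral.isIntegral x
  obtain ⟨y, hy⟩ : ∃ y : Option (IntermediateField.adjoin K {x | z = some x}),
      y.map (algebraMap (IntermediateField.adjoin K {x | z = some x}) (AlgebraicClosure K)) =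
        z := by
    cases z with
    | none => exact ⟨none, rfl⟩
    | some x =>
      exact ⟨some ⟨x, IntermediateField.subset_adjoin K _ rfl⟩, rfl⟩
  have h := orb d M p q (IntermediateField.adjoin K {x | z = some x}) y
    (hE _ hE1 t ht hfd hD) (by rw [hy]; exact hz1)
  rw [hy] at h
  exact h

/-- points of bounded gonality, maps of large critical height -/
def S_GON2 : Prop := ∃ N : ℕ → ℕ → ℕ → ℕ, ∀ (k : Type v) (K : Type u) [Field k] [CharZero k]
    [Field K] [Algebra k K] (D d B : ℕ), 2 ≤ d →
    ∀ p q : K[X], IsCoprime p q → max p.natDegree q.natDegree = d → LCH k p q d B →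
    {z : Option (AlgebraicClosure K) | (Set.range fun m : ℕ =>
        (ratP1 (p.map (algebraMap K (AlgebraicClosure K)))
          (q.map (algebraMap K (AlgebraicClosure K))) d)^[m] z).Finite ∧
      ∃ t : IntermediateField.adjoin K {x | z = some x}, Transcendental k t ∧
        FiniteDimensional (IntermediateField.adjoin k {t})
          (IntermediateField.adjoin K {x | z = some x}) ∧
        Module.finrank (IntermediateField.adjoin k {t})
          (IntermediateField.adjoin K {x | z = some x}) ≤ D}.encard ≤ ((N D d B : ℕ) : ℕ∞)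

theorem t_GON2 (hFIN : S_FIN2.{u, v}) (hEXT : S_EXT.{u, v}) : S_GON2.{u, v} := by
  obtain ⟨N, hN⟩ := hFIN
  refine ⟨fun D d B => (N D d B + 1) * ((N D d B + 1) * (2 * d ^ (N D d B) + 1)), ?_⟩
  intro k K _ _ _ _ D d B hd p q hco hmax hlch
  refine gonc D d (N D d B) hd p q hco hmax ?_
  intro E hE t ht hfd hD
  exact hN k E t ht hfd D d B hD hd _ _
    (hco.map (Polynomial.mapRingHom (algebraMap K E))) (deg_map p q d hmax)
    (hEXT k K p q d B hlch E hE)

theorem t_GON (hFIN : S_FIN.{u, v}) : S_GON.{u, v} := by
  obtain ⟨N, hN⟩ := hFIN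
  refine ⟨fun D d => (N D d + 1) * ((N D d + 1) * (2 * d ^ (N D d) + 1)), ?_⟩
  intro k K _ _ _ _ D d hd p q hco hmax hbic hiso
  refine gonc D d (N D d) hd p q hco hmax ?_
  intro E hE t ht hfd hD
  have hkEF : IsScalarTower k E (AlgebraicClosure K) := IsScalarTower.of_algebraMap_eq fun x => rfl
  have hmm : ∀ g : K[X], (g.map (algebraMap K E)).map (algebraMap E (AlgebraicClosure K)) =
      g.map (algebraMap K (AlgebraicClosure K)) := by
    intro g
    rw [Polynomial.map_map, ← IsScalarTower.algebraMap_eq]
  refine hN k E t ht hfd D d hD hd _ _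
    (hco.map (Polynomial.mapRingHom (algebraMap K E))) (deg_map p q d hmax) ?_ ?_
  · rcases hbic with h | h
    · exact Or.inl h
    · right
      let j : AlgebraicClosure K →ₐ[K] AlgebraicClosure E := IsAlgClosed.lift
      have h1 := h.map (j : AlgebraicClosure K →+* AlgebraicClosure E)
      have h2 : ∀ g : K[X], (g.map (algebraMap K (AlgebraicClosure K))).map
          (j : AlgebraicClosure K →+* AlgebraicClosure E) =
          (g.map (algebraMap K E)).map (algebraMap E (AlgebraicClosure E)) := by
        intro g
        rw [Polynomial.map_map, Polynomial.map_map, ← IsScalarTower.algebraMap_eq]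
        congr 1
        exact j.comp_algebraMap
      rw [h2, h2] at h1
      exact h1
  · intro h
    apply hiso
    have h1 := isoAlg_map (IsScalarTower.toAlgHom k E (AlgebraicClosure K)) h
    have h2 : ((IsScalarTower.toAlgHom k E (AlgebraicClosure K) :
        E →ₐ[k] AlgebraicClosure K) : E →+* AlgebraicClosure K) =
        algebraMap E (AlgebraicClosure K) := rfl
    rw [h2, hmm, hmm] at h1
    exact h1

end Pool.Agent.Y706.CH7
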