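import Pool.Agent.Y706.BI.Stm2

/-!
# Project CH: maps of large critical height, points of bounded degree and families
-/

namespace Pool.Agent.Y706.CH7

open Pool.Agent.W277.UH Pool.Agent.Y706.BI Polynomial NumberField

universe u v w

/-- the height of a point -/
noncomputable def height (k : Type*) {M : Type*} [Field k] [Field M] [Algebra k M] :
    Option M → ℕ
  | some x => Module.finrank (IntermediateField.adjoin k {x}) M
  | none => 0

/-- the canonical height -/
noncomputable def canHeight (k : Type*) {M : Type*} [Field k] [Field M] [Algebra k M]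
    (p q : M[X]) (d : ℕ) (c : Option M) : ENNReal :=
  Filter.limsup (fun m : ℕ => (height k ((ratP1 p q d)^[m] c) : ENNReal) / (d : ENNReal) ^ m)
    Filter.atTop

/-- critical points -/
def IsCritical {M : Type*} [Field M] (p q : M[X]) (d : ℕ) : Option M → Prop
  | some x => (derivative p * q - p * derivative q).eval x = 0
  | none => (derivative p * q - p * derivative q).coeff (2 * d - 2) = 0

/-- the largest height of a coefficient -/
noncomputable def mapHeight (k : Type*) {M : Type*} [Field k] [Field M] [Algebra k M]
    (u w : M[X]) (d : ℕ) : ℕ :=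
  (Finset.range (d + 1)).sup fun i =>
    max (height k (some (u.coeff i))) (height k (some (w.coeff i)))

/-- conjugate maps -/
def Conjugate {M : Type*} [Field M] (p q u w : M[X]) (d : ℕ) : Prop :=
  ∃ a b c e : M, a * e - b * c ≠ 0 ∧ ∃ s : M, s ≠ 0 ∧
    ∑ i ∈ Finset.range (d + 1),
      C (u.coeff i) * (C a * X + C b) ^ i * (C c * X + C e) ^ (d - i) =
        C s * (C a * p + C b * q) ∧
    ∑ i ∈ Finset.range (d + 1),
      C (w.coeff i) * (C a * X + C b) ^ i * (C c * X + C e) ^ (d - i) =
        C s * (C c * p + C e * q)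

/-- maps of large critical height -/
def LCH (k : Type v) {L : Type u} [Field k] [Field L] [Algebra k L] (p q : L[X])
    (d B : ℕ) : Prop :=
  ∃ (M : Type u) (_ : Field M) (_ : Algebra k M) (_ : Algebra L M), IsScalarTower k L M ∧
    FiniteDimensional L M ∧ Module.finrank L M ≤ B ∧
    ∃ u w : M[X], IsCoprime u w ∧ max u.natDegree w.natDegree = d ∧
      Conjugate (p.map (algebraMap L M)) (q.map (algebraMap L M)) u w d ∧
      (derivative u * w - u * derivative w).Splits ∧
      ∃ c : Option M, IsCritical u w d c ∧ 0 < mapHeight k u w d ∧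
        (mapHeight k u w d : ENNReal) ≤ B * canHeight k u w d c

/-- EXT: large critical height and finite extensions -/
def S_EXT : Prop := ∀ (k : Type v) (L : Type u) [Field k] [Field L] [Algebra k L] (p q : L[X])
  (d B : ℕ), LCH k p q d B → ∀ E : IntermediateField L (AlgebraicClosure L),
  FiniteDimensional L E → LCH k (p.map (algebraMap L E)) (q.map (algebraMap L E)) d B

/-- BDC: points of bounded degree, one map -/
def S_BDC : Prop := ∀ (L : Type u) [Field L] (D d M : ℕ), 2 ≤ d → ∀ p q : L[X], IsCoprime p q →
  max p.natDegree q.natDegree = d →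
  (∀ E : IntermediateField L (AlgebraicClosure L), FiniteDimensional L E →
    Module.finrank L E ≤ D → {z : Option E | (Set.range fun m : ℕ =>
      (ratP1 (p.map (algebraMap L E)) (q.map (algebraMap L E)) d)^[m] z).Finite}.encard ≤
      ((M : ℕ) : ℕ∞)) →
  {z : Option (AlgebraicClosure L) | (Set.range fun m : ℕ =>
        (ratP1 (p.map (algebraMap L (AlgebraicClosure L)))
          (q.map (algebraMap L (AlgebraicClosure L))) d)^[m] z).Finite ∧
      ∀ x, z = some x → ∃ E : IntermediateField L (AlgebraicClosure L), FiniteDimensional L E ∧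
        Module.finrank L E ≤ D ∧ x ∈ E}.encard ≤
    (((M + 1) * ((M + 1) * (2 * d ^ M + 1)) : ℕ) : ℕ∞)

/-- points of bounded degree, maps of large critical height -/
def S_BDG2 : Prop := ∃ N : ℕ → ℕ → ℕ → ℕ → ℕ, ∀ (k : Type v) (L : Type u) [Field k] [CharZero k]
    [Field L] [Algebra k L] (t : L), Transcendental k t →
    FiniteDimensional (IntermediateField.adjoin k {t}) L →
    ∀ (n D d B : ℕ), Module.finrank (IntermediateField.adjoin k {t}) L ≤ n → 2 ≤ d →
    ∀ p q : L[X], IsCoprime p q → max p.natDegree q.natDegree = d → LCH k p q d B →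
    {z : Option (AlgebraicClosure L) | (Set.range fun m : ℕ =>
        (ratP1 (p.map (algebraMap L (AlgebraicClosure L)))
          (q.map (algebraMap L (AlgebraicClosure L))) d)^[m] z).Finite ∧
      ∀ x, z = some x → ∃ E : IntermediateField L (AlgebraicClosure L), FiniteDimensional L E ∧
        Module.finrank L E ≤ D ∧ x ∈ E}.encard ≤ ((N n D d B : ℕ) : ℕ∞)

/-- families over number fields, points of bounded degree, large critical height -/
def S_FAM2 : Prop := ∃ N : ℕ → ℕ → ℕ → ℕ, ∀ (k : Type) [Field k] [NumberField k] (J : Type)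
    [Fintype J] (ω : Module.Basis J ℤ (𝓞 k)) (d B A : ℕ), 2 ≤ d → 1 ≤ B →
    ∀ (m : ℕ) (P Q : (MvPolynomial (Fin m) k)[X]) (i : Fin m),
      max P.natDegree Q.natDegree = d → IsCoprime (generic P) (generic Q) →
      LCH (others k i) (generic P) (generic Q) d A →
      AlmostAll ω m {v | v 0 ≠ 0 ∧ IsCoprime (special v P) (special v Q) ∧
        max (special v P).natDegree (special v Q).natDegree = d ∧
        (preperB (special v P) (special v Q) d B).encard ≤ ((N B d A : ℕ) : ℕ∞)}

end Pool.Agent.Y706.CH7
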