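import Pool.Agent.Y706.CH.Upo
import Pool.Agent.Results.MP_9b502d_nt.AnyTranscendenceDegree

set_option autoImplicit false

/-! Fields of rational functions are purely transcendental, for any algebra structure. -/

namespace Pool.Agent.Y706.UPO

open Pool.Agent.Results.MP_9b502d_nt.AnyTranscendenceDegree

theorem pt_gen (k : Type) [Field k] (ι : Type) [Finite ι] :
    (⊤ : IntermediateField k (FractionRing (MvPolynomial ι k))).FG ∧
      PurelyTranscendental k (FractionRing (MvPolynomial ι k)) := by
  have htop := top_rf k ι
  refine ⟨?_, _, AlgebraicIndependent.to_subtype_range (indep_frac (k := k) (ι := ι)), htop⟩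
  rw [IntermediateField.fg_def]
  exact ⟨_, Set.finite_range _, htop⟩

theorem pt_any (k : Type) [Field k] (ι : Type) [Finite ι]
    (hs : Subsingleton (Algebra k (FractionRing (MvPolynomial ι k)))) :
    ∀ inst : Algebra k (FractionRing (MvPolynomial ι k)),
      (⊤ : IntermediateField k (FractionRing (MvPolynomial ι k))).FG ∧
      PurelyTranscendental k (FractionRing (MvPolynomial ι k)) := by
  intro inst
  have h : inst = OreLocalization.instAlgebra := Subsingleton.elim _ _
  subst h
  exact pt_gen k ι

end Pool.Agent.Y706.UPO
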