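import Pool.Agent.Y706.BI.Stm

/-!
# Project CH: critical heights. Definitions
-/

namespace Pool.Agent.Y706.CH

open Pool.Agent.W277.UB Pool.Agent.W277.UG Pool.Agent.W277.UH Finset Polynomial
open Pool.Agent.Y706.BI (UV eqv fU hh G0 gg rt Av)

universe u v w

/-- The critical points `c i` of the map and the Lyapunov exponent `L`: the pairings of a point
`X` with the other points `rt T Y l`, `l ≠ l₀`, of its fibre add up to `∑ i, gg X (c i) - L`. -/
structure JD {Ω : Type u} [NormedField Ω] [IsUltrametricDist Ω] (T : HS Ω) where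
  /-- the critical points -/
  c : Fin (2 * T.d - 2) → UV Ω
  /-- the Lyapunov exponent -/
  L : ℝ
  hE : ∀ (X Y : UV Ω) (l₀ : Fin T.d), eqv (fU T X) Y → eqv X (rt T Y l₀) →
    (∀ i, ¬ eqv X (c i)) → (∀ l, l ≠ l₀ → ¬ eqv X (rt T Y l)) ∧
      ∑ l ∈ univ.erase l₀, gg T X (rt T Y l) = (∑ i, gg T X (c i)) - L

/-- the logarithm of the expansion -/
noncomputable def EE {Ω : Type u} [NormedField Ω] [IsUltrametricDist Ω] {T : HS Ω} (D : JD T)
    (X : UV Ω) : ℝ := D.L - ∑ i, gg T X (D.c i)

/-- the vectors `C i` are the critical points of `p / q`, of degree `d` -/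
def Crit {K : Type*} [Field K] (d : ℕ) (p q : K[X]) (C : Fin (2 * d - 2) → K × K) : Prop :=
  (∀ i, C i ≠ 0) ∧
    ∀ x : K, (derivative p * q - p * derivative q).eval x = ∏ i, wd ((x, 1) : K × K) (C i)

/-- the map on vectors -/
def bK {K : Type*} [Field K] (d : ℕ) (p q : K[X]) (X : K × K) : K × K := (hev d p X, hev d q X)

/-- the order of a vector -/
noncomputable def vo {K : Type*} [Field K] (ord : K → ℤ) (X : K × K) : ℤ := by
  classical
  exact if X.1 = 0 then ord X.2 else if X.2 = 0 then ord X.1 else min (ord X.1) (ord X.2)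

end Pool.Agent.Y706.CH
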