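import Pool.Agent.Y706.CH.FinQ
import Pool.Agent.Y706.BI.FinA
import Pool.Agent.Y523.BI.Hgt

/-!
# Project CH: the bound over a function field generated by elements of small height
-/

namespace Pool.Agent.Y706.CH

open Pool.Agent.W277.UB Pool.Agent.W277.UG Pool.Agent.W277.UH Finset Polynomial
open Pool.Agent.Y706.BI (UV eqv fU hh G0 gg rt Av S_GEN hc_X_one)
open Pool.Agent.W277.UB.PlaceData (pole_nonneg pole_zero pole_of_ne)

universe u v w

lemma conjConst_map (k : Type v) (K : Type u) [Field k] [Field K] [Algebra k K] (d : ℕ)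
    (p q : K[X]) (hp : p.natDegree ≤ d) (hq : q.natDegree ≤ d) (h : p ≠ 0 ∨ q ≠ 0)
    (hpc : ∀ i, ∃ c : k, algebraMap k K c = p.coeff i)
    (hqc : ∀ i, ∃ c : k, algebraMap k K c = q.coeff i) : ConjConst k p q d := by
  have hinj := (algebraMap k K).injective
  obtain ⟨u, hu⟩ : p ∈ lifts (algebraMap k K) := (lifts_iff_coeff_lifts p).mpr hpc
  obtain ⟨w, hw⟩ : q ∈ lifts (algebraMap k K) := (lifts_iff_coeff_lifts q).mpr hqc
  have hu' : u.map (algebraMap k K) = p := hu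
  have hw' : w.map (algebraMap k K) = q := hw
  refine ⟨1, 0, 0, 1, by simp, u, w, ?_, ?_, ?_, ?_⟩
  · rcases h with h | h
    · left
      rintro rfl
      apply h
      rw [← hu', Polynomial.map_zero]
    · right
      rintro rfl
      apply h
      rw [← hw', Polynomial.map_zero]
  · rw [← natDegree_map_eq_of_injective hinj, hu']
    exact hp
  · rw [← natDegree_map_eq_of_injective hinj, hw']
    exact hq
  · rw [hu', hw', hc_X_one d q hq, hc_X_one d p hp]
    simp only [C_1, C_0, one_mul, zero_mul, add_zero, zero_add]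
    ring

lemma vo_pole {k K : Type*} [Field k] [Field K] [Algebra k K] (Q : PlaceData k K) (v : Q.Pl)
    (X : K × K) (h : X.2 ≠ 0) :
    -(vo (Q.ord v) X) = Q.pole v (X.1 / X.2) - Q.ord v X.2 := by
  unfold vo
  by_cases h1 : X.1 = 0
  · rw [if_pos h1, h1, zero_div, pole_zero]
    ring
  · rw [if_neg h1, if_neg h, pole_of_ne (div_ne_zero h1 h), PlaceData.ord_div h1 h]
    omega

open Classical in
/-- the support of a set of elements -/
noncomputable def sp {k K : Type*} [Field k] [Field K] [Algebra k K] (Q : PlaceData k K)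
    (E : Finset K) : Finset Q.Pl :=
  E.biUnion fun x => if h : x ≠ 0 then (Q.fin x h).toFinset else ∅

lemma sp_ord {k K : Type*} [Field k] [Field K] [Algebra k K] (Q : PlaceData k K)
    (E : Finset K) (v : Q.Pl) (hv : v ∉ sp Q E) (x : K) (hx : x ∈ E) (hx0 : x ≠ 0) :
    Q.ord v x = 0 := by
  classical
  by_contra h
  apply hv
  unfold sp
  rw [Finset.mem_biUnion]
  refine ⟨x, hx, ?_⟩
  rw [dif_pos hx0, Set.Finite.mem_toFinset]
  exact h

lemma sp_pole {k K : Type*} [Field k] [Field K] [Algebra k K] (Q : PlaceData k K)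
    (E : Finset K) (v : Q.Pl) (hv : v ∉ sp Q E) (x : K) (hx : x ∈ E) :
    Q.pole v x = 0 := by
  by_cases h : x = 0
  · rw [h, pole_zero]
  · rw [pole_of_ne h, sp_ord Q E v hv x hx h]
    simp

/-- the height of a point -/
lemma vo_sum {k K : Type*} [Field k] [Field K] [Algebra k K] [DecidableEq K]
    (Q : PlaceData k K) (X : K × K)
    (h : X.2 ≠ 0) (S : Finset Q.Pl) (hS : ∀ v, v ∉ S → vo (Q.ord v) X = 0) :
    ∃ S' : Finset Q.Pl, (∀ v, v ∉ S' → Q.pole v (X.1 / X.2) = 0) ∧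
      ∑ v ∈ S, (Q.wt v : ℝ) * (-(vo (Q.ord v) X : ℝ)) =
        ∑ v ∈ S', (Q.wt v : ℝ) * Q.pole v (X.1 / X.2) := by
  classical
  refine ⟨S ∪ sp Q {X.2, X.1 / X.2}, ?_, ?_⟩
  · intro v hv
    rw [Finset.mem_union, not_or] at hv
    exact sp_pole Q _ v hv.2 _ (by simp)
  · have h1 : ∑ v ∈ S, (Q.wt v : ℝ) * (-(vo (Q.ord v) X : ℝ)) =
        ∑ v ∈ S ∪ sp Q {X.2, X.1 / X.2}, (Q.wt v : ℝ) * (-(vo (Q.ord v) X : ℝ)) := by
      apply Finset.sum_subset Finset.subset_union_left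
      intro v _ hv
      rw [hS v hv]
      simp
    have h2 := prod_zero' Q (S ∪ sp Q {X.2, X.1 / X.2}) X.2 h (by
      intro v hv
      rw [Finset.mem_union, not_or] at hv
      exact sp_ord Q _ v hv.2 _ (by simp) h)
    rw [h1]
    have h3 : ∑ v ∈ S ∪ sp Q {X.2, X.1 / X.2}, (Q.wt v : ℝ) * (-(vo (Q.ord v) X : ℝ)) =
        ∑ v ∈ S ∪ sp Q {X.2, X.1 / X.2}, ((Q.wt v : ℝ) * Q.pole v (X.1 / X.2) -
          (Q.wt v : ℝ) * Q.ord v X.2) := by
      apply Finset.sum_congr rfl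
      intro v _
      have e1 : (-(vo (Q.ord v) X : ℝ)) = (Q.pole v (X.1 / X.2) : ℝ) - Q.ord v X.2 := by
        exact_mod_cast vo_pole Q v X h
      rw [e1]
      ring
    rw [h3, Finset.sum_sub_distrib, h2, sub_zero]

open Classical in
/-- the height of the point given by a vector -/
noncomputable def hpt (k : Type*) {K : Type*} [Field k] [Field K] [Algebra k K] (X : K × K) : ℕ :=
  if X.2 = 0 then 0 else Module.finrank (IntermediateField.adjoin k {X.1 / X.2}) K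

theorem finD (hLOC : S_LOC2.{u, u, u}) (hGLOB : S_GLOB2.{u, u, u}) (hPD : S_PD.{u, u})
    (hGEN : S_GEN.{u, u}) (hHB : S_HB.{u, u, u}) (d n B : ℕ) (hd : 2 ≤ d) (hB : 1 ≤ B) :
    ∃ N : ℕ, ∀ (k K : Type u) [Field k] [CharZero k] [Field K] [Algebra k K]
    [Algebra (RatFunc k) K] [IsScalarTower k (RatFunc k) K] [FiniteDimensional (RatFunc k) K]
    [DecidableEq K], (∀ x : K, IsAlgebraic k x → ∃ c : k, algebraMap k K c = x) →
    Module.finrank (RatFunc k) K ≤ n → ∀ p q : K[X], p.natDegree ≤ d → q.natDegree = d →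
    IsCoprime p q → ¬ ConjConst k p q d → ∀ Cr : Fin (2 * d - 2) → K × K, Crit d p q Cr →
    ∀ P : Finset K, (∀ z ∈ P, q.eval z ≠ 0 ∧ p.eval z / q.eval z ∈ P) →
    ∀ A : Finset K, (∀ i, p.coeff i ∈ Submodule.span k (A : Set K)) →
    (∀ i, q.coeff i ∈ Submodule.span k (A : Set K)) → A.card ≤ 2 * (d + 1) →
    IntermediateField.adjoin (RatFunc k) ((P : Set K) ∪ (A : Set K) ∪
      {x | ∃ i, (Cr i).2 ≠ 0 ∧ x = (Cr i).1 / (Cr i).2}) = ⊤ →
    (∀ M₀ : ℕ, ∃ m, M₀ ≤ m ∧ ∃ i, ∀ a ∈ A,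
      d ^ m * Module.finrank (IntermediateField.adjoin k {a}) K ≤
        B * hpt k ((bK d p q)^[m] (Cr i))) →
    P.card < N := by
  classical
  obtain ⟨C, hC⟩ := hPD
  set Cn : ℕ := ∑ i ∈ range (n + 1), C i + 1 with hCn
  have hCle : ∀ j ≤ n, C j ≤ Cn := by
    intro j hj
    have : C j ≤ ∑ i ∈ range (n + 1), C i :=
      Finset.single_le_sum (f := C) (fun i _ => Nat.zero_le _) (Finset.mem_range.mpr (by omega))
    omega
  have hCn1 : 1 ≤ Cn := by omega
  obtain ⟨N, hN⟩ := finQ hLOC hGLOB d (20 * (n + 1) ^ 2 * d) (2 * (d + 1) * Cn ^ 2 * B) hd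
    (Nat.succ_le_of_lt (by positivity)) (Nat.succ_le_of_lt (by positivity))
  refine ⟨N, ?_⟩
  intro k K _ _ _ _ _ _ _ _ hcl hfin p q hp hq hco hiso Cr hCr P hP A hpA hqA hAc hadj hcrit
  have : CharZero (RatFunc k) := charZero_of_injective_algebraMap
    (algebraMap k (RatFunc k)).injective
  have hq0 : q ≠ 0 := by
    rintro rfl
    simp at hq
    omega
  -- a non-constant coefficient
  have hex : ∃ a ∈ A, ∀ c : k, a ≠ algebraMap k K c := by
    by_contra hcon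
    push Not at hcon
    apply hiso
    have hspan : ∀ x ∈ Submodule.span k (A : Set K), ∃ c : k, algebraMap k K c = x := by
      intro x hx
      induction hx using Submodule.span_induction with
      | mem x hx =>
        obtain ⟨c, hc⟩ := hcon x hx
        exact ⟨c, hc.symm⟩
      | zero => exact ⟨0, map_zero _⟩
      | add x y _ _ hx hy =>
        obtain ⟨c, rfl⟩ := hx
        obtain ⟨c', rfl⟩ := hy
        exact ⟨c + c', map_add _ _ _⟩
      | smul s x _ hx =>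
        obtain ⟨c, rfl⟩ := hx
        exact ⟨s * c, by rw [map_mul, Algebra.smul_def]⟩
    exact conjConst_map k K d p q hp hq.le (Or.inr hq0) (fun i => hspan _ (hpA i))
      fun i => hspan _ (hqA i)
  obtain ⟨a₀, ha₀, ha₀c⟩ := hex
  set G : Set K := (P : Set K) ∪ (A : Set K) ∪
      {x | ∃ i, (Cr i).2 ≠ 0 ∧ x = (Cr i).1 / (Cr i).2} with hG
  obtain ⟨T, hTG, hTn, hTadj⟩ := hGEN (RatFunc k) K n hfin G hadj
  set T' := insert a₀ T with hT'
  have hT'G : ∀ t ∈ T', t ∈ G := by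
    intro t ht
    rw [hT', Finset.mem_insert] at ht
    rcases ht with rfl | ht
    · exact Or.inl (Or.inr ha₀)
    · exact hTG ht
  have hT'n : T'.card ≤ n + 1 := (Finset.card_insert_le _ _).trans (by omega)
  have hT'adj : IntermediateField.adjoin (RatFunc k) (T' : Set K) = ⊤ := by
    rw [eq_top_iff, ← hTadj]
    apply IntermediateField.adjoin.mono
    rw [hT']
    exact_mod_cast Finset.subset_insert a₀ T
  obtain ⟨u, huT, hugen, huc⟩ := Pool.Agent.W277.UD.exists_gen (k := k) (F := RatFunc k) (E := K)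
    (T' : Set K) hT'adj a₀ (by rw [hT']; exact_mod_cast Finset.mem_insert_self a₀ T) ha₀c
  obtain ⟨Q, hQ1, hQ2⟩ := hC k K hcl u hugen huc
  have hwt : ∀ v, (0 : ℝ) ≤ Q.wt v := fun v => by exact_mod_cast Q.wt_nonneg v
  have hwt1 : ∀ v, (1 : ℝ) ≤ Q.wt v := fun v => by exact_mod_cast Q.wt_one v
  set S₁ : Finset Q.Pl := sp Q (A ∪ T') with hS₁
  set Mv : Q.Pl → ℝ := fun v => ∑ a ∈ A, (Q.pole v a : ℝ) with hMv
  have hpole0 : ∀ v x, (0 : ℝ) ≤ Q.pole v x := fun v x => by exact_mod_cast pole_nonneg v x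
  have hMv0 : ∀ v, 0 ≤ Mv v := fun v => Finset.sum_nonneg fun a _ => hpole0 v a
  have hMS : ∀ v, v ∉ S₁ → Mv v = 0 := by
    intro v hv
    apply Finset.sum_eq_zero
    intro a ha
    rw [sp_pole Q _ v hv a (Finset.mem_union_left _ ha)]
    simp
  have hcoef : ∀ v x, x ∈ Submodule.span k (A : Set K) → x ≠ 0 → -Mv v ≤ Q.ord v x := by
    intro v x hx hx0
    have h1 := Pool.Agent.Y523.BI.pole_span Q v A hx
    have h2 : -Q.ord v x ≤ Q.pole v x := by
      rw [pole_of_ne hx0]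
      exact le_max_right _ _
    have h3 : -Q.ord v x ≤ ∑ a ∈ A, Q.pole v a := h2.trans h1
    have h4 : (-(Q.ord v x : ℝ)) ≤ ∑ a ∈ A, (Q.pole v a : ℝ) := by exact_mod_cast h3
    simp only [hMv]
    linarith
  set H : ℝ := ∑ v ∈ S₁, (Q.wt v : ℝ) * Mv v with hH
  have hHA : ∀ a ∈ A, ∑ v ∈ S₁, (Q.wt v : ℝ) * (Q.pole v a : ℝ) ≤ H := by
    intro a ha
    apply Finset.sum_le_sum
    intro v _
    apply mul_le_mul_of_nonneg_left _ (hwt v)
    exact Finset.single_le_sum (f := fun a => (Q.pole v a : ℝ)) (fun a _ => hpole0 v a) ha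
  have ha₀0 : a₀ ≠ 0 := by
    intro h
    exact ha₀c 0 (by rw [h, map_zero])
  have hone : 1 ≤ ∑ v ∈ S₁, (Q.wt v : ℝ) * (Q.pole v a₀ : ℝ) := by
    obtain ⟨v, hv⟩ : ∃ v, Q.ord v a₀ < 0 := by
      by_contra hcon
      push Not at hcon
      obtain ⟨c, hc⟩ := Q.const a₀ ha₀0 hcon
      exact ha₀c c hc.symm
    have hvS : v ∈ S₁ := by
      by_contra hv1
      have := sp_ord Q _ v hv1 a₀ (Finset.mem_union_left _ ha₀) ha₀0
      omega
    have h1 : (1 : ℝ) ≤ Q.pole v a₀ := by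
      have : 1 ≤ Q.pole v a₀ := by
        rw [pole_of_ne ha₀0]
        apply le_max_of_le_right
        omega
      exact_mod_cast this
    have h2 : (Q.wt v : ℝ) * (Q.pole v a₀ : ℝ) ≤
        ∑ v ∈ S₁, (Q.wt v : ℝ) * (Q.pole v a₀ : ℝ) :=
      Finset.single_le_sum (f := fun v => (Q.wt v : ℝ) * (Q.pole v a₀ : ℝ))
        (fun v _ => mul_nonneg (hwt v) (hpole0 v a₀)) hvS
    have h4 : (1 : ℝ) ≤ (Q.wt v : ℝ) * (Q.pole v a₀ : ℝ) := by nlinarith [hwt1 v]
    linarith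
  have hHpos : 0 < H := by
    have h3 := hHA a₀ ha₀
    linarith
  obtain ⟨hb1, hb2⟩ := hHB d hd k K Q p q hp hq hco Cr hCr P hP S₁ Mv H hMv0 hMS
    (fun v i h => hcoef v _ (hpA i) h) (fun v i h => hcoef v _ (hqA i) h) le_rfl
  have hdR : (2 : ℝ) ≤ d := by exact_mod_cast hd
  have hG10 : ∀ t ∈ T', ∑ v ∈ S₁, (Q.wt v : ℝ) * (Q.pole v t : ℝ) ≤ 10 * d * H := by
    intro t ht
    have hS1t : ∀ v, v ∉ S₁ → Q.pole v t = 0 := fun v hv =>
      sp_pole Q _ v hv t (Finset.mem_union_right _ ht)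
    rcases hT'G t ht with (h | h) | ⟨i, hi, rfl⟩
    · exact hb1 t h S₁ hS1t
    · refine (hHA t h).trans ?_
      nlinarith
    · exact hb2 i hi S₁ hS1t
  -- the loss
  have hloss : (Q.lossT : ℝ) ≤ ((20 * (n + 1) ^ 2 * d : ℕ) : ℝ) * H := by
    have h1 := hQ1 S₁ (by
      intro v hv
      apply le_antisymm _ (pole_nonneg v u)
      refine (Pool.Agent.Y523.BI.pole_span Q v T' huT).trans (le_of_eq ?_)
      apply Finset.sum_eq_zero
      intro t ht
      exact sp_pole Q _ v hv t (Finset.mem_union_right _ ht))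
    have h2 : (Q.lossT : ℝ) ≤ 2 * (Module.finrank (RatFunc k) K : ℝ) *
        ∑ v ∈ S₁, (Q.wt v : ℝ) * (Q.pole v u : ℝ) := by
      exact_mod_cast h1
    have h3 : ∑ v ∈ S₁, (Q.wt v : ℝ) * (Q.pole v u : ℝ) ≤ (n + 1) * (10 * d * H) := by
      calc ∑ v ∈ S₁, (Q.wt v : ℝ) * (Q.pole v u : ℝ)
          ≤ ∑ v ∈ S₁, (Q.wt v : ℝ) * ∑ t ∈ T', (Q.pole v t : ℝ) := by
            refine Finset.sum_le_sum fun v _ => mul_le_mul_of_nonneg_left ?_ (hwt v)
            exact_mod_cast Pool.Agent.Y523.BI.pole_span Q v T' huT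
        _ = ∑ t ∈ T', ∑ v ∈ S₁, (Q.wt v : ℝ) * (Q.pole v t : ℝ) := by
            rw [Finset.sum_comm]
            exact Finset.sum_congr rfl fun v _ => by rw [Finset.mul_sum]
        _ ≤ ∑ t ∈ T', 10 * d * H := Finset.sum_le_sum hG10
        _ = (T'.card : ℝ) * (10 * d * H) := by rw [Finset.sum_const, nsmul_eq_mul]
        _ ≤ (n + 1) * (10 * d * H) := by
            refine mul_le_mul_of_nonneg_right ?_ (by positivity)
            exact_mod_cast hT'n
    have h4 : (Module.finrank (RatFunc k) K : ℝ) ≤ n := by exact_mod_cast hfin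
    have hn0 : (0 : ℝ) ≤ n := Nat.cast_nonneg _
    calc (Q.lossT : ℝ) ≤ 2 * (Module.finrank (RatFunc k) K : ℝ) *
        ∑ v ∈ S₁, (Q.wt v : ℝ) * (Q.pole v u : ℝ) := h2
      _ ≤ 2 * (Module.finrank (RatFunc k) K : ℝ) * ((n + 1) * (10 * d * H)) :=
          mul_le_mul_of_nonneg_left h3 (by positivity)
      _ ≤ 2 * (n + 1) * ((n + 1) * (10 * d * H)) := by
          refine mul_le_mul_of_nonneg_right (by linarith) (by positivity)
      _ = ((20 * (n + 1) ^ 2 * d : ℕ) : ℝ) * H := by push_cast; ring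
  refine hN k K Q p q hp hq hco hiso Cr hCr P hP S₁ Mv H hMv0 hMS
    (fun v i h => hcoef v _ (hpA i) h) (fun v i h => hcoef v _ (hqA i) h) le_rfl hHpos hloss ?_
  intro M₀
  obtain ⟨m, hm, i, hmi⟩ := hcrit M₀
  refine ⟨m, hm, i, ?_⟩
  intro S hS
  set X := (bK d p q)^[m] (Cr i) with hX
  have hX2 : X.2 ≠ 0 := by
    intro h
    have h1 := hmi a₀ ha₀
    have h2 : hpt k X = 0 := by
      unfold hpt
      rw [if_pos h]
    rw [h2, mul_zero] at h1
    have h3 : Module.finrank (IntermediateField.adjoin k {a₀}) K = 0 := by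
      rcases Nat.mul_eq_zero.mp (Nat.le_zero.mp h1) with h4 | h4
      · exact absurd h4 (by positivity)
      · exact h4
    have h4 := (hQ2 a₀ S₁ (fun v hv => sp_pole Q _ v hv a₀ (Finset.mem_union_left _ ha₀))).1
    rw [h3] at h4
    have h5 : ∑ v ∈ S₁, (Q.wt v : ℝ) * (Q.pole v a₀ : ℝ) ≤ 0 := by
      have : ∑ v ∈ S₁, Q.wt v * Q.pole v a₀ ≤ 0 := by simpa using h4
      exact_mod_cast this
    linarith
  have hpX : hpt k X = Module.finrank (IntermediateField.adjoin k {X.1 / X.2}) K := by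
    unfold hpt
    rw [if_neg hX2]
  rw [hpX] at hmi
  obtain ⟨S', hS'1, hS'2⟩ := vo_sum Q X hX2 S hS
  rw [hS'2]
  have hf1 : (Module.finrank (IntermediateField.adjoin k {X.1 / X.2}) K : ℝ) ≤
      Cn * ∑ v ∈ S', (Q.wt v : ℝ) * (Q.pole v (X.1 / X.2) : ℝ) := by
    have h1 := (hQ2 (X.1 / X.2) S' hS'1).2
    have h2 : (Module.finrank (IntermediateField.adjoin k {X.1 / X.2}) K : ℝ) ≤
      C (Module.finrank (RatFunc k) K) * ∑ v ∈ S', (Q.wt v : ℝ) * (Q.pole v (X.1 / X.2) : ℝ) := by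
      exact_mod_cast h1
    refine h2.trans (mul_le_mul_of_nonneg_right ?_ ?_)
    · exact_mod_cast hCle _ hfin
    · exact Finset.sum_nonneg fun v _ => mul_nonneg (hwt v) (hpole0 v _)
  have hf2 : ∀ a ∈ A, ∑ v ∈ S₁, (Q.wt v : ℝ) * (Q.pole v a : ℝ) ≤
      Cn * (Module.finrank (IntermediateField.adjoin k {a}) K : ℝ) := by
    intro a ha
    have h1 := (hQ2 a S₁ (fun v hv => sp_pole Q _ v hv a (Finset.mem_union_left _ ha))).1
    have h2 : ∑ v ∈ S₁, (Q.wt v : ℝ) * (Q.pole v a : ℝ) ≤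
      C (Module.finrank (RatFunc k) K) *
        (Module.finrank (IntermediateField.adjoin k {a}) K : ℝ) := by
      exact_mod_cast h1
    refine h2.trans (mul_le_mul_of_nonneg_right ?_ (Nat.cast_nonneg _))
    exact_mod_cast hCle _ hfin
  have hHsum : H = ∑ a ∈ A, ∑ v ∈ S₁, (Q.wt v : ℝ) * (Q.pole v a : ℝ) := by
    rw [hH, Finset.sum_comm]
    apply Finset.sum_congr rfl
    intro v _
    simp only [hMv]
    rw [Finset.mul_sum]
  set hx : ℝ := (Module.finrank (IntermediateField.adjoin k {X.1 / X.2}) K : ℝ) with hhx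
  have hx0 : 0 ≤ hx := Nat.cast_nonneg _
  have hf3 : (d : ℝ) ^ m * H ≤ (A.card : ℝ) * (Cn * (B * hx)) := by
    rw [hHsum, Finset.mul_sum, ← nsmul_eq_mul, ← Finset.sum_const]
    apply Finset.sum_le_sum
    intro a ha
    have h1 := mul_le_mul_of_nonneg_left (hf2 a ha) (show (0 : ℝ) ≤ (d : ℝ) ^ m by positivity)
    have h2 : (d : ℝ) ^ m * (Module.finrank (IntermediateField.adjoin k {a}) K : ℝ) ≤ B * hx := by
      rw [hhx]
      exact_mod_cast hmi a ha
    have h3 := mul_le_mul_of_nonneg_left h2 (show (0 : ℝ) ≤ (Cn : ℝ) from Nat.cast_nonneg _)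
    linarith
  have hAc' : (A.card : ℝ) ≤ 2 * (d + 1) := by exact_mod_cast hAc
  calc (d : ℝ) ^ m * H ≤ (A.card : ℝ) * (Cn * (B * hx)) := hf3
    _ ≤ (2 * (d + 1)) * (Cn * (B * hx)) := mul_le_mul_of_nonneg_right hAc' (by positivity)
    _ ≤ (2 * (d + 1)) * (Cn * (B * (Cn *
        ∑ v ∈ S', (Q.wt v : ℝ) * (Q.pole v (X.1 / X.2) : ℝ)))) := by
        gcongr
    _ = ((2 * (d + 1) * Cn ^ 2 * B : ℕ) : ℝ) *
        ∑ v ∈ S', (Q.wt v : ℝ) * (Q.pole v (X.1 / X.2) : ℝ) := by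
        push_cast
        ring

end Pool.Agent.Y706.CH
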