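import Pool.Agent.Y706.CH.FinD
import Pool.Agent.Y706.CH.Stm4
import Pool.Agent.Y706.BI.FinC

/-!
# Project CH: the bound over a function field, all points of the projective line
-/

namespace Pool.Agent.Y706.CH

open Pool.Agent.W277.UB Pool.Agent.W277.UG Pool.Agent.W277.UH Finset Polynomial
open Pool.Agent.Y706.BI (S_GEN S_AFF S_CJC Cj hc_map)

universe u v w

lemma pc_map {M N : Type*} [Field M] [Field N] (j : M →+* N) (d : ℕ) (q : M[X]) (c : M) :
    (pc d q c).map j = pc d (q.map j) (j c) := by
  unfold pc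
  rw [hc_map]
  simp

/-- the image of a vector -/
def vmp {M N : Type*} [Field M] [Field N] (j : M →+* N) (X : M × M) : N × N := (j X.1, j X.2)

lemma bK_map {M N : Type*} [Field M] [Field N] (j : M →+* N) (d : ℕ) (p q : M[X]) (X : M × M) :
    vmp j (bK d p q X) = bK d (p.map j) (q.map j) (vmp j X) := by
  unfold vmp bK hev
  simp only [Polynomial.coeff_map, map_sum, map_mul, map_pow]

/-- an orbit in the new coordinates -/
lemma orbit_eq {E L : Type*} [Field E] [Field L] [Infinite L] (j : E →+* L)
    (hAFC : ∀ (p q : L[X]) (c : L) (d : ℕ), 1 ≤ d → p.natDegree ≤ d → q.natDegree ≤ d →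
      ∀ X : L × L, bK d (pc d q c) (pc d (p - C c * q) c) (mv c X) = mv c (bK d p q X))
    (d : ℕ) (hd : 1 ≤ d) (p q : L[X]) (hp : p.natDegree ≤ d) (hq : q.natDegree ≤ d) (c : L)
    (p2 q2 : E[X]) (hp2 : p2.map j = pc d q c) (hq2 : q2.map j = pc d (p - C c * q) c)
    (X : E × E) (Y : L × L) (s : L) (hs : s ≠ 0) (h : vmp j X = s • mv c Y) (m : ℕ) :
    ∃ s' : L, s' ≠ 0 ∧ vmp j ((bK d p2 q2)^[m] X) = s' • mv c ((bK d p q)^[m] Y) := by
  induction m with
  | zero => exact ⟨s, hs, h⟩
  | succ m ih =>
    obtain ⟨s', hs', h'⟩ := ih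
    refine ⟨s' ^ d, pow_ne_zero _ hs', ?_⟩
    rw [Function.iterate_succ_apply', Function.iterate_succ_apply', bK_map, h', hp2, hq2,
      bK_smul, hAFC p q c d hd hp hq]

theorem finL (hLOC : S_LOC2.{u, u, u}) (hGLOB : S_GLOB2.{u, u, u}) (hPD : S_PD.{u, u})
    (hGEN : S_GEN.{u, u}) (hHB : S_HB.{u, u, u}) (hAFF : S_AFF.{u, u})
    (hCJC : S_CJC.{u, u, u}) (hAFC : S_AFC.{u}) (hAFA : S_AFA.{u, u}) (hNRM : S_NRM.{u, u})
    (hFDA : S_FDA.{u, u}) (hHTA : S_HTA.{u, u}) (hHT : S_HT.{u, u}) (d n B : ℕ) (hd : 2 ≤ d)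
    (hB : 1 ≤ B) :
    ∃ N : ℕ, ∀ (k L : Type u) [Field k] [CharZero k] [Field L] [Algebra k L]
    [Algebra (RatFunc k) L] [IsScalarTower k (RatFunc k) L] [FiniteDimensional (RatFunc k) L],
    (∀ x : L, IsAlgebraic k x → ∃ c : k, algebraMap k L c = x) →
    Module.finrank (RatFunc k) L ≤ n → ∀ p q : L[X], max p.natDegree q.natDegree = d →
    IsCoprime p q → ¬ ConjConst k p q d → ∀ Cr : Fin (2 * d - 2) → L × L, Crit d p q Cr →
    ∀ P : Finset (Option L), (∀ z ∈ P, ratP1 p q d z ∈ P) →
    (∀ M₀ : ℕ, ∃ m, M₀ ≤ m ∧ ∃ i, ∀ j,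
      d ^ m * Module.finrank (IntermediateField.adjoin k {p.coeff j}) L ≤
        B * hpt k ((bK d p q)^[m] (Cr i)) ∧
      d ^ m * Module.finrank (IntermediateField.adjoin k {q.coeff j}) L ≤
        B * hpt k ((bK d p q)^[m] (Cr i))) →
    P.card < N := by
  classical
  obtain ⟨N, hN⟩ := finD hLOC hGLOB hPD hGEN hHB d n (B * (n + 1)) hd
    (Nat.succ_le_of_lt (by positivity))
  refine ⟨N, ?_⟩
  intro k L _ _ _ _ _ _ _ hcl hfin p q hmax hco hiso Cr hCr P hP hcrit
  have hpd : p.natDegree ≤ d := hmax ▸ le_max_left _ _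
  have hqd : q.natDegree ≤ d := hmax ▸ le_max_right _ _
  have : Infinite k := inferInstance
  have : Infinite L := Infinite.of_injective _ (algebraMap k L).injective
  obtain ⟨c, ⟨c', hc'⟩, hcP, hd1, hd2, hco2, hinj2, hst2, hcj2⟩ := hAFF k L d hd p q hco hmax P hP
  have hCr2 := (hAFC L d (by omega) p q hpd hqd c).2 Cr hCr
  set V : Fin (2 * d - 2) → L × L := fun i => mv c (Cr i) with hV
  set A : Finset L := (range (d + 1)).image p.coeff ∪ (range (d + 1)).image q.coeff with hA
  set P2 : Finset L := P.image (phc c) with hP2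
  set R : Finset L := univ.image fun i => (V i).1 / (V i).2 with hR
  set Sx : Set L := (P2 : Set L) ∪ (A : Set L) ∪ (R : Set L) with hSx
  let E : IntermediateField (RatFunc k) L := IntermediateField.adjoin (RatFunc k) Sx
  have hkE : ∀ c : k, algebraMap k L c ∈ E := by
    intro c
    rw [IsScalarTower.algebraMap_apply k (RatFunc k) L]
    exact E.algebraMap_mem _
  have tow1 : IsScalarTower k (RatFunc k) E := by
    apply IsScalarTower.of_algebraMap_eq
    intro c
    apply Subtype.ext
    exact IsScalarTower.algebraMap_apply k (RatFunc k) L c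
  have tow2 : IsScalarTower k E L := by
    apply IsScalarTower.of_algebraMap_eq
    intro c
    rfl
  have hfd : FiniteDimensional (RatFunc k) E := inferInstance
  have hfd2 : FiniteDimensional E L := FiniteDimensional.right (RatFunc k) E L
  have hclE : ∀ x : E, IsAlgebraic k x → ∃ c : k, algebraMap k E c = x := by
    intro x hx
    obtain ⟨c, hc⟩ := hcl (x : L) hx.algebraMap
    exact ⟨c, Subtype.ext hc⟩
  have hfinE : Module.finrank (RatFunc k) E ≤ n := by
    refine le_trans ?_ hfin
    exact Submodule.finrank_le E.toSubalgebra.toSubmodule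
  have hEL : Module.finrank E L ≤ n := by
    have h1 := Module.finrank_mul_finrank (RatFunc k) E L
    have h2 : 0 < Module.finrank (RatFunc k) E := Module.finrank_pos
    have h3 : Module.finrank E L ≤ Module.finrank (RatFunc k) L := by
      rw [← h1]
      exact Nat.le_mul_of_pos_left _ h2
    omega
  have : Infinite E := Infinite.of_injective _ (algebraMap k E).injective
  have hinj : Function.Injective (algebraMap E L) := (algebraMap E L).injective
  have hmemE : ∀ x ∈ Sx, ∃ y : E, algebraMap E L y = x := fun x hx =>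
    ⟨⟨x, IntermediateField.subset_adjoin _ _ hx⟩, rfl⟩
  have hAS : ∀ x ∈ A, x ∈ Sx := fun x hx => Or.inl (Or.inr hx)
  have hpA : ∀ i, i ≤ d → p.coeff i ∈ A := fun i hi => Finset.mem_union_left _
    (Finset.mem_image_of_mem _ (Finset.mem_range.mpr (by omega)))
  have hqA : ∀ i, i ≤ d → q.coeff i ∈ A := fun i hi => Finset.mem_union_right _
    (Finset.mem_image_of_mem _ (Finset.mem_range.mpr (by omega)))
  obtain ⟨pE, hpE⟩ : p ∈ lifts (algebraMap E L) := by
    rw [lifts_iff_coeff_lifts]
    intro i
    by_cases hi : i ≤ d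
    · exact hmemE _ (hAS _ (hpA i hi))
    · exact ⟨0, by rw [map_zero, coeff_eq_zero_of_natDegree_lt (by omega)]⟩
  obtain ⟨qE, hqE⟩ : q ∈ lifts (algebraMap E L) := by
    rw [lifts_iff_coeff_lifts]
    intro i
    by_cases hi : i ≤ d
    · exact hmemE _ (hAS _ (hqA i hi))
    · exact ⟨0, by rw [map_zero, coeff_eq_zero_of_natDegree_lt (by omega)]⟩
  have hpE' : pE.map (algebraMap E L) = p := hpE
  have hqE' : qE.map (algebraMap E L) = q := hqE
  set cE : E := algebraMap k E c' with hcE
  have hcEL : algebraMap E L cE = c := by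
    rw [hc', hcE, ← IsScalarTower.algebraMap_apply]
  set p2 := pc d qE cE with hp2
  set q2 := pc d (pE - C cE * qE) cE with hq2
  have hm1 : p2.map (algebraMap E L) = pc d q c := by
    rw [hp2, pc_map, hqE', hcEL]
  have hm2 : q2.map (algebraMap E L) = pc d (p - C c * q) c := by
    rw [hq2, pc_map, hcEL, Polynomial.map_sub, Polynomial.map_mul, Polynomial.map_C, hqE', hpE',
      hcEL]
  have g1 : p2.natDegree ≤ d := by
    rw [← natDegree_map_eq_of_injective hinj, hm1]
    exact hd1
  have g2 : q2.natDegree = d := by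
    rw [← natDegree_map_eq_of_injective hinj, hm2]
    exact hd2
  have g3 : IsCoprime p2 q2 := by
    rw [← Polynomial.isCoprime_map (algebraMap E L), hm1, hm2]
    exact hco2
  have g4 : ¬ ConjConst k p2 q2 d := by
    intro h
    apply hiso
    refine hCJC k E L d 0 1 1 (-c) p q p2 q2 hpd hqd g1 g2.le ?_ h
    rw [hm1, hm2]
    exact hcj2
  obtain ⟨CrE, hCrE, hCs⟩ := hNRM E L d hd p2 q2 V (by rw [hm1, hm2]; exact hCr2) (by
    intro i _
    apply hmemE
    right
    rw [hR]
    exact Finset.mem_coe.mpr (Finset.mem_image_of_mem _ (Finset.mem_univ i)))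
  set PE : Finset E := P2.preimage (algebraMap E L) hinj.injOn with hPE
  have hmemPE : ∀ x : E, x ∈ PE ↔ algebraMap E L x ∈ P2 := by
    intro x
    rw [hPE, Finset.mem_preimage]
  have hcardPE : P2.card ≤ PE.card := by
    have h1 : P2 ⊆ PE.image (algebraMap E L) := by
      intro x hx
      obtain ⟨y, hy⟩ := hmemE x (Or.inl (Or.inl hx))
      rw [Finset.mem_image]
      exact ⟨y, (hmemPE y).mpr (hy ▸ hx), hy⟩
    exact (Finset.card_le_card h1).trans Finset.card_image_le
  have hev1 : ∀ (f : E[X]) (x : E), algebraMap E L (f.eval x) =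
      (f.map (algebraMap E L)).eval (algebraMap E L x) := by
    intro f x
    rw [Polynomial.eval_map, Polynomial.eval₂_at_apply]
  have g5 : ∀ z ∈ PE, q2.eval z ≠ 0 ∧ p2.eval z / q2.eval z ∈ PE := by
    intro z hz
    have h1 := hst2 _ ((hmemPE z).mp hz)
    constructor
    · intro h
      apply h1.1
      rw [← hm2, ← hev1, h, map_zero]
    · rw [hmemPE, map_div₀, hev1, hev1, hm1, hm2]
      exact h1.2
  set AE : Finset E := A.preimage (algebraMap E L) hinj.injOn with hAE
  have hmemAE : ∀ x : E, x ∈ AE ↔ algebraMap E L x ∈ A := by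
    intro x
    rw [hAE, Finset.mem_preimage]
  have hAc : AE.card ≤ 2 * (d + 1) := by
    have h1 : AE.card ≤ A.card := Finset.card_le_card_of_injOn (algebraMap E L)
      (fun x hx => (hmemAE x).mp hx) hinj.injOn
    have h2 : A.card ≤ (d + 1) + (d + 1) := by
      refine (Finset.card_union_le _ _).trans (add_le_add ?_ ?_)
      · exact Finset.card_image_le.trans (by simp)
      · exact Finset.card_image_le.trans (by simp)
    omega
  have hpEc : ∀ i, pE.coeff i ∈ Submodule.span k (AE : Set E) := by
    intro i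
    by_cases hi : i ≤ d
    · apply Submodule.subset_span
      apply Finset.mem_coe.mpr
      rw [hmemAE, ← coeff_map, hpE']
      exact hpA i hi
    · have : pE.coeff i = 0 := by
        apply hinj
        rw [← coeff_map, hpE', map_zero, coeff_eq_zero_of_natDegree_lt (by omega)]
      rw [this]
      exact Submodule.zero_mem _
  have hqEc : ∀ i, qE.coeff i ∈ Submodule.span k (AE : Set E) := by
    intro i
    by_cases hi : i ≤ d
    · apply Submodule.subset_span
      apply Finset.mem_coe.mpr
      rw [hmemAE, ← coeff_map, hqE']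
      exact hqA i hi
    · have : qE.coeff i = 0 := by
        apply hinj
        rw [← coeff_map, hqE', map_zero, coeff_eq_zero_of_natDegree_lt (by omega)]
      rw [this]
      exact Submodule.zero_mem _
  have g6 : ∀ i, p2.coeff i ∈ Submodule.span k (AE : Set E) :=
    hAFA k E d qE c' (AE : Set E) hqEc
  have g7 : ∀ i, q2.coeff i ∈ Submodule.span k (AE : Set E) := by
    apply hAFA k E d _ c' (AE : Set E)
    intro i
    rw [coeff_sub, coeff_C_mul]
    apply Submodule.sub_mem _ (hpEc i)
    rw [← Algebra.smul_def]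
    exact Submodule.smul_mem _ _ (hqEc i)
  have g8 : IntermediateField.adjoin (RatFunc k) ((PE : Set E) ∪ (AE : Set E) ∪
      {x | ∃ i, (CrE i).2 ≠ 0 ∧ x = (CrE i).1 / (CrE i).2}) = ⊤ := by
    set GE : Set E := (PE : Set E) ∪ (AE : Set E) ∪
      {x | ∃ i, (CrE i).2 ≠ 0 ∧ x = (CrE i).1 / (CrE i).2} with hGE
    apply IntermediateField.lift_injective E
    rw [IntermediateField.lift_adjoin, IntermediateField.lift_top]
    apply le_antisymm
    · rw [IntermediateField.adjoin_le_iff]
      rintro _ ⟨x, _, rfl⟩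
      exact x.2
    · show IntermediateField.adjoin (RatFunc k) Sx ≤ _
      rw [IntermediateField.adjoin_le_iff]
      rintro x ((hx | hx) | hx)
      · obtain ⟨y, hy⟩ := hmemE x (Or.inl (Or.inl hx))
        apply IntermediateField.subset_adjoin
        refine ⟨y, Or.inl (Or.inl ?_), hy⟩
        exact Finset.mem_coe.mpr ((hmemPE y).mpr (hy ▸ hx))
      · obtain ⟨y, hy⟩ := hmemE x (Or.inl (Or.inr hx))
        apply IntermediateField.subset_adjoin
        refine ⟨y, Or.inl (Or.inr ?_), hy⟩
        exact Finset.mem_coe.mpr ((hmemAE y).mpr (hy ▸ hx))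
      · have hx' : x ∈ R := hx
        rw [hR, Finset.mem_image] at hx'
        obtain ⟨i, -, hi⟩ := hx'
        by_cases hi2 : (V i).2 = 0
        · rw [← hi, hi2, div_zero]
          exact zero_mem _
        · obtain ⟨s, hs, hsV⟩ := hCs i
          have e1 : algebraMap E L (CrE i).1 = s * (V i).1 := congrArg Prod.fst hsV
          have e2 : algebraMap E L (CrE i).2 = s * (V i).2 := congrArg Prod.snd hsV
          have e3 : (CrE i).2 ≠ 0 := by
            intro h
            rw [h, map_zero] at e2
            exact mul_ne_zero hs hi2 e2.symm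
          apply IntermediateField.subset_adjoin
          refine ⟨(CrE i).1 / (CrE i).2, Or.inr ⟨i, e3, rfl⟩, ?_⟩
          show algebraMap E L ((CrE i).1 / (CrE i).2) = x
          rw [map_div₀, e1, e2, mul_div_mul_left _ _ hs, hi]
  have hlt := hN k E hclE hfinE p2 q2 g1 g2 g3 g4 CrE hCrE PE g5 AE g6 g7 hAc g8 ?_
  · have h1 : P2.card = P.card := Finset.card_image_of_injOn hinj2
    omega
  -- the heights
  obtain ⟨tE, htE, hfdE⟩ := hFDA k E
  have htL : Transcendental k (algebraMap E L tE) := by
    intro h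
    apply htE
    exact (isAlgebraic_algebraMap_iff hinj).mp h
  have hht : ∀ x : E, Module.finrank (IntermediateField.adjoin k {x}) E ≤
      Module.finrank (IntermediateField.adjoin k {algebraMap E L x}) L ∧
      Module.finrank (IntermediateField.adjoin k {algebraMap E L x}) L ≤
      n * Module.finrank (IntermediateField.adjoin k {x}) E := by
    intro x
    obtain ⟨h1, h2⟩ := hHT k k E L tE htE hfdE x
    refine ⟨h1, h2.trans ?_⟩
    rw [Module.finrank_self, one_mul]
    exact Nat.mul_le_mul_right _ hEL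
  intro M₀
  obtain ⟨m, hm, i, hmi⟩ := hcrit M₀
  refine ⟨m, hm, i, ?_⟩
  set Y := (bK d p q)^[m] (Cr i) with hY
  set XE := (bK d p2 q2)^[m] (CrE i) with hXE
  obtain ⟨s₀, hs₀, hs₀V⟩ := hCs i
  obtain ⟨s, hs, hsV⟩ := orbit_eq (algebraMap E L)
    (fun p q c d hd hp hq => (hAFC L d hd p q hp hq c).1) d (by omega) p q hpd hqd c p2 q2
    hm1 hm2 (CrE i) (Cr i) s₀ hs₀ hs₀V m
  have e1 : algebraMap E L XE.1 = s * Y.2 := congrArg Prod.fst hsV
  have e2 : algebraMap E L XE.2 = s * (Y.1 - c * Y.2) := congrArg Prod.snd hsV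
  have hkey : hpt k Y ≤ n * hpt k XE := by
    by_cases hY2 : Y.2 = 0
    · have : hpt k Y = 0 := by
        unfold hpt
        rw [if_pos hY2]
      rw [this]
      exact Nat.zero_le _
    · have hpY : hpt k Y = Module.finrank (IntermediateField.adjoin k {Y.1 / Y.2}) L := by
        unfold hpt
        rw [if_neg hY2]
      by_cases hyc : Y.1 - c * Y.2 = 0
      · have h1 : Y.1 / Y.2 = algebraMap k L c' := by
          rw [← hc', div_eq_iff hY2]
          exact sub_eq_zero.mp hyc
        rw [hpY, h1, (hHTA k L _ htL).1 _ (isAlgebraic_algebraMap c')]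
        exact Nat.zero_le _
      · have hX2 : XE.2 ≠ 0 := by
          intro h
          rw [h, map_zero] at e2
          exact mul_ne_zero hs hyc e2.symm
        have hX1 : XE.1 ≠ 0 := by
          intro h
          rw [h, map_zero] at e1
          exact mul_ne_zero hs hY2 e1.symm
        have hpX : hpt k XE = Module.finrank (IntermediateField.adjoin k {XE.1 / XE.2}) E := by
          unfold hpt
          rw [if_neg hX2]
        set w := XE.1 / XE.2 with hw
        have hw0 : w ≠ 0 := div_ne_zero hX1 hX2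
        have hyw : Y.1 / Y.2 = algebraMap E L (algebraMap k E c' + w⁻¹) := by
          rw [map_add, map_inv₀, hw, map_div₀, e1, e2]
          have : algebraMap E L (algebraMap k E c') = c := hcEL
          rw [this]
          field_simp
          ring
        have h2 := (hHTA k E tE htE).2 c' w (algebraMap k E c' + w⁻¹) hw0 rfl
        rw [hpY, hyw, hpX, ← h2]
        exact (hht _).2
  intro a ha
  have haA := (hmemAE a).mp ha
  have h1 : d ^ m * Module.finrank (IntermediateField.adjoin k {algebraMap E L a}) L ≤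
      B * hpt k Y := by
    rw [hA, Finset.mem_union, Finset.mem_image, Finset.mem_image] at haA
    rcases haA with ⟨j, _, hj⟩ | ⟨j, _, hj⟩
    · rw [← hj]
      exact (hmi j).1
    · rw [← hj]
      exact (hmi j).2
  calc d ^ m * Module.finrank (IntermediateField.adjoin k {a}) E
      ≤ d ^ m * Module.finrank (IntermediateField.adjoin k {algebraMap E L a}) L :=
        Nat.mul_le_mul_left _ (hht a).1
    _ ≤ B * hpt k Y := h1
    _ ≤ B * (n * hpt k XE) := Nat.mul_le_mul_left _ hkey
    _ ≤ B * (n + 1) * hpt k XE := by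
        rw [mul_assoc]
        exact Nat.mul_le_mul_left _ (Nat.mul_le_mul_right _ (Nat.le_succ n))

end Pool.Agent.Y706.CH
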