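import Pool.Agent.Y706.CH.Stm

/-!
# Project CH: further statements
-/

namespace Pool.Agent.Y706.CH

open Pool.Agent.W277.UB Pool.Agent.W277.UG Pool.Agent.W277.UH Finset Polynomial

universe u v w

/-- HT: comparison of degrees -/
def S_HT : Prop := ∀ (k : Type v) (k' E L : Type u) [Field k] [Field k'] [Field E] [Field L]
  [Algebra k k'] [Algebra k' E] [Algebra E L] [Algebra k L] [Algebra k' L] [IsScalarTower k k' L]
  [IsScalarTower k' E L] [FiniteDimensional k k'] [FiniteDimensional E L] (t : E),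
  Transcendental k' t → FiniteDimensional (IntermediateField.adjoin k' {t}) E → ∀ x : E,
  Module.finrank (IntermediateField.adjoin k' {x}) E ≤
    Module.finrank (IntermediateField.adjoin k {algebraMap E L x}) L ∧
  Module.finrank (IntermediateField.adjoin k {algebraMap E L x}) L ≤
    Module.finrank k k' * Module.finrank E L *
      Module.finrank (IntermediateField.adjoin k' {x}) E

/-- KF: the field of constants is finite over `k` -/
def S_KF : Prop := ∀ (k : Type v) (L : Type u) [Field k] [Field L] [Algebra k L] (t : L),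
  Transcendental k t → FiniteDimensional (IntermediateField.adjoin k {t}) L →
  FiniteDimensional k (algebraicClosure k L) ∧
    Module.finrank k (algebraicClosure k L) ≤ Module.finrank (IntermediateField.adjoin k {t}) L

/-- HB: heights of preperiodic points and of critical points -/
def S_HB : Prop := ∀ d : ℕ, 2 ≤ d →
  ∀ (k : Type v) (K : Type u) [Field k] [CharZero k] [Field K] [Algebra k K] [DecidableEq K]
  (Q : PlaceData.{w} k K) (p q : K[X]), p.natDegree ≤ d → q.natDegree = d → IsCoprime p q →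
  ∀ C : Fin (2 * d - 2) → K × K, Crit d p q C →
  ∀ P : Finset K, (∀ z ∈ P, q.eval z ≠ 0 ∧ p.eval z / q.eval z ∈ P) →
  ∀ (S₀ : Finset Q.Pl) (M : Q.Pl → ℝ) (H : ℝ), (∀ v, 0 ≤ M v) → (∀ v, v ∉ S₀ → M v = 0) →
  (∀ v i, p.coeff i ≠ 0 → -M v ≤ Q.ord v (p.coeff i)) →
  (∀ v i, q.coeff i ≠ 0 → -M v ≤ Q.ord v (q.coeff i)) →
  ∑ v ∈ S₀, (Q.wt v : ℝ) * M v ≤ H →
  (∀ z ∈ P, ∀ S : Finset Q.Pl, (∀ v, v ∉ S → Q.pole v z = 0) →
    ∑ v ∈ S, (Q.wt v : ℝ) * Q.pole v z ≤ 10 * d * H) ∧
  ∀ i, (C i).2 ≠ 0 → ∀ S : Finset Q.Pl, (∀ v, v ∉ S → Q.pole v ((C i).1 / (C i).2) = 0) →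
    ∑ v ∈ S, (Q.wt v : ℝ) * Q.pole v ((C i).1 / (C i).2) ≤ 10 * d * H

end Pool.Agent.Y706.CH
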