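import Pool.Agent.Y706.CH.Stm2

/-!
# Project CH: statements on coordinates
-/

namespace Pool.Agent.Y706.CH

open Pool.Agent.W277.UB Pool.Agent.W277.UG Pool.Agent.W277.UH Finset Polynomial

universe u v w

/-- the point of the projective line given by a vector -/
noncomputable def pt {K : Type*} [Field K] (X : K × K) : Option K := by
  classical
  exact if X.2 = 0 then none else some (X.1 / X.2)

/-- the vector in the new coordinates -/
def mv {K : Type*} [Field K] (c : K) (X : K × K) : K × K := (X.2, X.1 - c * X.2)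

/-- PT: the map on points -/
def S_PT : Prop := ∀ (K : Type u) [Field K] (d : ℕ), 1 ≤ d → ∀ p q : K[X],
  max p.natDegree q.natDegree = d → IsCoprime p q → ∀ X : K × K, X ≠ 0 →
  bK d p q X ≠ 0 ∧ ratP1 p q d (pt X) = pt (bK d p q X)

/-- AFC: the critical points in the new coordinates -/
def S_AFC : Prop := ∀ (K : Type u) [Field K] [Infinite K] (d : ℕ), 1 ≤ d → ∀ p q : K[X],
  p.natDegree ≤ d → q.natDegree ≤ d → ∀ c : K,
  (∀ X : K × K, bK d (pc d q c) (pc d (p - C c * q) c) (mv c X) = mv c (bK d p q X)) ∧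
  (∀ Cr : Fin (2 * d - 2) → K × K, Crit d p q Cr →
    Crit d (pc d q c) (pc d (p - C c * q) c) fun i => mv c (Cr i))

/-- AFA: the coefficients in the new coordinates -/
def S_AFA : Prop := ∀ (k : Type v) (K : Type u) [Field k] [Field K] [Algebra k K] (d : ℕ)
  (q : K[X]) (c : k) (A : Set K), (∀ i, q.coeff i ∈ Submodule.span k A) →
  ∀ i, (pc d q (algebraMap k K c)).coeff i ∈ Submodule.span k A

/-- CRT: the critical points -/
def S_CRT : Prop := ∀ (K : Type u) [Field K] [CharZero K] (d : ℕ), 2 ≤ d → ∀ p q : K[X],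
  max p.natDegree q.natDegree = d → IsCoprime p q →
  (derivative p * q - p * derivative q).Splits →
  ∃ Cr : Fin (2 * d - 2) → K × K, Crit d p q Cr ∧
    (∀ r, (derivative p * q - p * derivative q).eval r = 0 → ∃ i, pt (Cr i) = some r) ∧
    ((derivative p * q - p * derivative q).coeff (2 * d - 2) = 0 → ∃ i, pt (Cr i) = none)

end Pool.Agent.Y706.CH
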