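import Pool.Agent.Y706.CH.Stm3

/-!
# Project CH: conjugate maps
-/

namespace Pool.Agent.Y706.CH

open Pool.Agent.W277.UB Pool.Agent.W277.UG Pool.Agent.W277.UH Finset Polynomial

universe u v w

/-- CNJ: conjugate maps on points -/
def S_CNJ : Prop := ∀ (M : Type u) [Field M] [Infinite M] (d : ℕ), 1 ≤ d →
  ∀ (a b c e : M), a * e - b * c ≠ 0 → ∀ s : M, s ≠ 0 → ∀ p q u w : M[X],
  max p.natDegree q.natDegree = d → IsCoprime p q → max u.natDegree w.natDegree = d →
  IsCoprime u w →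
  ∑ i ∈ Finset.range (d + 1), C (u.coeff i) * (C a * X + C b) ^ i * (C c * X + C e) ^ (d - i) =
    C s * (C a * p + C b * q) →
  ∑ i ∈ Finset.range (d + 1), C (w.coeff i) * (C a * X + C b) ^ i * (C c * X + C e) ^ (d - i) =
    C s * (C c * p + C e * q) →
  ∃ φ : Option M → Option M, Function.Injective φ ∧
    ∀ z, φ (ratP1 p q d z) = ratP1 u w d (φ z)

end Pool.Agent.Y706.CH
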