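import Pool.Agent.Y706.PT3
import Pool.Agent.Y706.P2
import Pool.Agent.Y706.P9

set_option autoImplicit false

/-! Binary forms and the uniform bound for the portrait of a family. -/

namespace Pool.Agent.Y706.UPO

open MvPolynomial Pool.Agent.H936R2 Pool.Agent.H927R2.RD H294UB Pool.Agent.W275.UB
  Pool.Agent.W193.UB Pool.Agent.W277.UH Pool.Agent.Y706

/-- the polynomial `F(x, 1)` -/
noncomputable def deh {K : Type} [Field K] (F : MvPolynomial (Fin 2) K) : Polynomial K :=
  MvPolynomial.aeval ![Polynomial.X, 1] F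

section

variable {K : Type} [Field K] {d : ℕ}

lemma deh_form (c : Mono 2 d → K) :
    deh (form c) = ∑ κ, Polynomial.C (c κ) * Polynomial.X ^ (κ.1 0 : ℕ) := by
  have h1 : deh (form c) = MvPolynomial.eval ![Polynomial.X, 1] (map Polynomial.C (form c)) := by
    unfold deh
    rw [eval_map, aeval_def]
    rfl
  rw [h1, map_form, eval_form]
  apply Finset.sum_congr rfl
  intro κ _
  rw [Fin.prod_univ_two]
  simp

lemma mono_inj {κ κ' : Mono 2 d} (h : (κ.1 0 : ℕ) = κ'.1 0) : κ = κ' := by
  apply Subtype.ext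
  funext i
  have h1 := κ.2
  have h2 := κ'.2
  rw [Fin.sum_univ_two] at h1 h2
  fin_cases i
  · exact Fin.ext h
  · apply Fin.ext
    show (κ.1 1 : ℕ) = κ'.1 1
    omega

lemma deh_coeff (c : Mono 2 d → K) (κ : Mono 2 d) : (deh (form c)).coeff (κ.1 0) = c κ := by
  rw [deh_form, Polynomial.finset_sum_coeff, Finset.sum_eq_single κ]
  · simp
  · intro κ' _ hne
    rw [Polynomial.coeff_C_mul, Polynomial.coeff_X_pow, if_neg, mul_zero]
    intro h
    exact hne (mono_inj h.symm)
  · intro h
    exact absurd (Finset.mem_univ _) h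

lemma deh_degree (c : Mono 2 d → K) : (deh (form c)).natDegree ≤ d := by
  rw [deh_form]
  apply Polynomial.natDegree_sum_le_of_forall_le
  intro κ _
  refine (Polynomial.natDegree_C_mul_X_pow_le _ _).trans ?_
  exact Nat.le_of_lt_succ (κ.1 0).2

lemma deh_natDegree {F : MvPolynomial (Fin 2) K} (hF : F.IsHomogeneous d) :
    (deh F).natDegree ≤ d := by
  rw [← form_coeff hF]
  exact deh_degree _

lemma form_deh {F : MvPolynomial (Fin 2) K} (hF : F.IsHomogeneous d) :
    form (fun κ : Mono 2 d => (deh F).coeff (κ.1 0)) = F := by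
  obtain ⟨c, hc⟩ : ∃ c : Mono 2 d → K, F = form c := ⟨_, (form_coeff hF).symm⟩
  subst hc
  congr 1
  funext κ
  exact deh_coeff c κ

lemma sy_co {F : Fin 2 → MvPolynomial (Fin 2) K} (hF : ∀ i, (F i).IsHomogeneous d) :
    sy (co (deh (F 0)) (deh (F 1)) d) = F := by
  funext i
  fin_cases i
  · show form (fun κ : Mono 2 d => co (deh (F 0)) (deh (F 1)) d (0, κ)) = F 0
    exact form_deh (hF 0)
  · show form (fun κ : Mono 2 d => co (deh (F 0)) (deh (F 1)) d (1, κ)) = F 1
    exact form_deh (hF 1)

lemma monIn_of_morP {F : Fin 2 → MvPolynomial (Fin 2) K} (hF : ∀ i, (F i).IsHomogeneous d)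
    (hmor : MorP F) : ∃ s, MonIn s F := by
  obtain ⟨v, hv⟩ : ∃ v : Idx 2 d → K, v = fun i => coeff (expo i.2) (F i.1) := ⟨_, rfl⟩
  have hFv : F = sy v := by
    rw [hv]
    funext i
    exact (form_coeff (hF i)).symm
  obtain ⟨s, c, hc, hMC⟩ := exists_monC (algebraMap K (AlgebraicClosure K)) v (by
      intro x hx
      apply hmor x
      intro i
      have h1 := hx i
      rw [← Pool.Agent.W193.UB.map_sy, eval_map] at h1
      rw [aeval_def, hFv]
      exact h1)
  have hc0 : c ≠ 0 := by
    rintro rfl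
    exact hc (map_zero _)
  refine ⟨s, ?_⟩
  rw [hFv]
  exact hMC.monIn (isUnit_iff_ne_zero.2 hc0)

/-- the number of the points of a portrait -/
theorem card_portrait (hd : 1 ≤ d) {r C : ℕ} {F : Fin 2 → MvPolynomial (Fin 2) K}
    (hF : ∀ i, (F i).IsHomogeneous d) (hmor : MorP F) {y : Fin r → Fin 2 → K}
    {σ : Fin r → Fin r} (hpo : PortO F y σ)
    (hb : IsCoprime (deh (F 0)) (deh (F 1)) → max (deh (F 0)).natDegree (deh (F 1)).natDegree = d →
      {z : Option K | (Set.range fun m : ℕ => (ratP1 (deh (F 0)) (deh (F 1)) d)^[m] z).Finite}.encard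
        ≤ (C : ℕ∞)) : r ≤ C := by
  classical
  obtain ⟨s, hM⟩ := monIn_of_morP hF hmor
  have hM' : MonIn s (sy (co (deh (F 0)) (deh (F 1)) d)) := by
    rw [sy_co hF]
    exact hM
  obtain ⟨hco, hmax⟩ := of_monIn (deh_natDegree (hF 0)) (deh_natDegree (hF 1)) hM'
  have hfew := few_of_encard hd hmax hco C (hb hco hmax)
  rw [sy_co hF] at hfew
  obtain ⟨h1, h2, h3, h4⟩ := hpo
  have hinj : Function.Injective y := fun i j hij => h2 i j 1 (by rw [one_smul]; exact hij)
  have h5 := hfew (Finset.univ.image y) (by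
    intro x hx
    obtain ⟨i, -, rfl⟩ := Finset.mem_image.1 hx
    exact h1 i) (by
    intro x hx x' hx' c hc
    obtain ⟨i, -, rfl⟩ := Finset.mem_image.1 hx
    obtain ⟨j, -, rfl⟩ := Finset.mem_image.1 hx'
    rw [h2 i j c hc]) (by
    intro x hx
    obtain ⟨i, -, rfl⟩ := Finset.mem_image.1 hx
    exact pre_of_sigma hF h3 i)
  rw [Finset.card_image_of_injective _ hinj, Finset.card_univ, Fintype.card_fin] at h5
  exact h5

end

section

variable (k : Type) [Field k] (ι : Type)

lemma top_rf : IntermediateField.adjoin k (Set.range fun i : ι =>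
    algebraMap (MvPolynomial ι k) (FractionRing (MvPolynomial ι k)) (MvPolynomial.X i)) = ⊤ := by
  rw [eq_top_iff]
  rintro x -
  have h1 : ∀ P : MvPolynomial ι k, algebraMap (MvPolynomial ι k) (FractionRing (MvPolynomial ι k)) P
      ∈ IntermediateField.adjoin k (Set.range fun i : ι =>
    algebraMap (MvPolynomial ι k) (FractionRing (MvPolynomial ι k)) (MvPolynomial.X i)) := by
    intro P
    induction P using MvPolynomial.induction_on with
    | C a =>
      have h2 : algebraMap (MvPolynomial ι k) (FractionRing (MvPolynomial ι k))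
          (MvPolynomial.C a) = algebraMap k (FractionRing (MvPolynomial ι k)) a := by
        rw [IsScalarTower.algebraMap_apply k (MvPolynomial ι k) (FractionRing (MvPolynomial ι k))]
        rfl
      rw [h2]
      exact IntermediateField.algebraMap_mem _ a
    | add p q hp hq => rw [map_add]; exact add_mem hp hq
    | mul_X p j hp =>
      rw [map_mul]
      exact mul_mem hp (IntermediateField.subset_adjoin _ _ ⟨j, rfl⟩)
  obtain ⟨a, b, hb, rfl⟩ := IsFractionRing.div_surjective (A := MvPolynomial ι k) x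
  exact div_mem (h1 a) (h1 b)

end

end Pool.Agent.Y706.UPO
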